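import Mathlib

/-!
# Comparison lemmas for second order equations
-/

open Set
open scoped Topology

namespace Pool.Agent.H708R2.EulerTypeI

lemma right_of_Icc {F : Type*} [NormedAddCommGroup F] [NormedSpace ℝ F] {a b : ℝ} {f : ℝ → F}
    {f' : F} {t : ℝ} (ht : t ∈ Ico a b) (hf : HasDerivWithinAt f f' (Icc a b) t) :
    HasDerivWithinAt f f' (Ici t) t := by
  refine hf.mono_of_mem_nhdsWithin ?_
  exact Filter.mem_of_superset (Icc_mem_nhdsGE ht.2) (Icc_subset_Icc_left ht.1)

/-- Vector-valued comparison: if `|y''| ≤ (R''/R) |y|` and the initial data are dominated by those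
of `C R` then `|y| ≤ C R`. -/
lemma comp_norm {E : Type*} [NormedAddCommGroup E] [NormedSpace ℝ E] {a b : ℝ} (hab : a ≤ b)
    {y y1 y2 : ℝ → E} {R R1 R2 : ℝ → ℝ} {C : ℝ}
    (hy : ∀ t ∈ Icc a b, HasDerivWithinAt y (y1 t) (Icc a b) t)
    (hy1 : ∀ t ∈ Icc a b, HasDerivWithinAt y1 (y2 t) (Icc a b) t)
    (hR : ∀ t ∈ Icc a b, HasDerivWithinAt R (R1 t) (Icc a b) t)
    (hR1 : ∀ t ∈ Icc a b, HasDerivWithinAt R1 (R2 t) (Icc a b) t)
    (hRpos : ∀ t ∈ Icc a b, 0 < R t) (hR1pos : ∀ t ∈ Icc a b, 0 ≤ R1 t)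
    (hR2 : ∀ t ∈ Icc a b, 0 ≤ R2 t)
    (hyR : ∀ t ∈ Icc a b, ‖y2 t‖ ≤ R2 t / R t * ‖y t‖)
    (h0 : ‖y a‖ ≤ C * R a) (h1 : ‖y1 a‖ ≤ C * R1 a) : ∀ t ∈ Icc a b, ‖y t‖ ≤ C * R t := by
  have haI : a ∈ Icc a b := ⟨le_rfl, hab⟩
  have hyc : ContinuousOn y (Icc a b) := fun t ht => (hy t ht).continuousWithinAt
  have hRc : ContinuousOn R (Icc a b) := fun t ht => (hR t ht).continuousWithinAt
  have hy1c : ContinuousOn y1 (Icc a b) := fun t ht => (hy1 t ht).continuousWithinAt
  have hR1c : ContinuousOn R1 (Icc a b) := fun t ht => (hR1 t ht).continuousWithinAt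
  have hqc : ContinuousOn (fun t => ‖y t‖ / R t) (Icc a b) :=
    hyc.norm.div hRc fun t ht => (hRpos t ht).ne'
  obtain ⟨s, hs, hmax⟩ := isCompact_Icc.exists_isMaxOn ⟨a, haI⟩ hqc
  set K := ‖y s‖ / R s with hK
  have hyK : ∀ t ∈ Icc a b, ‖y t‖ ≤ K * R t := by
    intro t ht
    have := hmax ht
    simp only [mem_ofPred_eq] at this
    rwa [div_le_iff₀ (hRpos t ht)] at this
  -- bound of the first derivative
  have hb1 : ∀ t ∈ Icc a b, ‖y1 t‖ ≤ C * R1 a + K * (R1 t - R1 a) := by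
    refine image_norm_le_of_norm_deriv_right_le_deriv_boundary' hy1c
      (fun t ht => right_of_Icc ht (hy1 t (Ico_subset_Icc_self ht)))
      (B' := fun t => K * R2 t) (by simpa using h1) (by fun_prop)
      (fun t ht => right_of_Icc ht ?_) ?_
    · have := ((hR1 t (Ico_subset_Icc_self ht)).sub_const (R1 a)).const_mul K
      exact this.const_add _
    · intro t ht
      have htI := Ico_subset_Icc_self ht
      refine (hyR t htI).trans ?_
      have hq : 0 ≤ R2 t / R t := div_nonneg (hR2 t htI) (hRpos t htI).le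
      calc R2 t / R t * ‖y t‖ ≤ R2 t / R t * (K * R t) := by gcongr; exact hyK t htI
        _ = K * R2 t := by
          have := (hRpos t htI).ne'
          field_simp
  have hb0 : ∀ t ∈ Icc a b, ‖y t‖ ≤ C * R a + (C - K) * R1 a * (t - a) + K * (R t - R a) := by
    refine image_norm_le_of_norm_deriv_right_le_deriv_boundary' hyc
      (fun t ht => right_of_Icc ht (hy t (Ico_subset_Icc_self ht)))
      (B' := fun t => (C - K) * R1 a + K * R1 t) (by simpa using h0) (by fun_prop)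
      (fun t ht => right_of_Icc ht ?_) ?_
    · have e1 := ((hR t (Ico_subset_Icc_self ht)).sub_const (R a)).const_mul K
      have e2 : HasDerivWithinAt (fun t => C * R a + (C - K) * R1 a * (t - a))
          ((C - K) * R1 a) (Icc a b) t := by
        have := (((hasDerivAt_id t).sub_const a).const_mul ((C - K) * R1 a)).const_add (C * R a)
        simpa using this.hasDerivWithinAt
      exact e2.add e1
    · intro t ht
      refine (hb1 t (Ico_subset_Icc_self ht)).trans (le_of_eq ?_)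
      ring
  have hs1 := hb0 s hs
  have hKs : ‖y s‖ = K * R s := by
    rw [hK, div_mul_cancel₀ _ (hRpos s hs).ne']
  rw [hKs] at hs1
  have hle : K ≤ C := by
    have h2 : 0 ≤ (C - K) * (R a + R1 a * (s - a)) := by nlinarith
    have h3 : 0 < R a + R1 a * (s - a) := by
      have := hRpos a haI
      have := hR1pos a haI
      have := hs.1
      nlinarith [mul_nonneg (hR1pos a haI) (sub_nonneg.2 hs.1)]
    by_contra hcon
    push Not at hcon
    nlinarith
  intro t ht
  exact (hyK t ht).trans (by gcongr; exact (hRpos t ht).le)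

/-- One-sided comparison: if `ρ ≥ 0`, `ρ'' ≤ (R''/R) ρ` and `R` is positive and nondecreasing then
`ρ ≤ C R` with an explicit constant. -/
lemma comp_one_sided {a b : ℝ} (hab : a ≤ b) {ρ ρ1 ρ2 R R1 R2 : ℝ → ℝ}
    (hρ : ∀ t ∈ Icc a b, HasDerivWithinAt ρ (ρ1 t) (Icc a b) t)
    (hρ1 : ∀ t ∈ Icc a b, HasDerivWithinAt ρ1 (ρ2 t) (Icc a b) t)
    (hR : ∀ t ∈ Icc a b, HasDerivWithinAt R (R1 t) (Icc a b) t)
    (hR1 : ∀ t ∈ Icc a b, HasDerivWithinAt R1 (R2 t) (Icc a b) t)
    (hRpos : ∀ t ∈ Icc a b, 0 < R t) (hRmono : ∀ t ∈ Icc a b, R a ≤ R t)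
    (h2 : ∀ t ∈ Icc a b, ρ2 t * R t ≤ R2 t * ρ t) :
    ∀ t ∈ Icc a b, ρ t ≤ (ρ a / R a + |ρ1 a * R a - ρ a * R1 a| * (b - a) / (R a) ^ 2) * R t := by
  have haI : a ∈ Icc a b := ⟨le_rfl, hab⟩
  have hRa := hRpos a haI
  have hρc : ContinuousOn ρ (Icc a b) := fun t ht => (hρ t ht).continuousWithinAt
  have hRc : ContinuousOn R (Icc a b) := fun t ht => (hR t ht).continuousWithinAt
  have hρ1c : ContinuousOn ρ1 (Icc a b) := fun t ht => (hρ1 t ht).continuousWithinAt
  have hR1c : ContinuousOn R1 (Icc a b) := fun t ht => (hR1 t ht).continuousWithinAt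
  set W : ℝ → ℝ := fun t => ρ1 t * R t - ρ t * R1 t with hW
  have hWd : ∀ t ∈ Icc a b, HasDerivWithinAt W (ρ2 t * R t - ρ t * R2 t) (Icc a b) t := by
    intro t ht
    have := ((hρ1 t ht).mul (hR t ht)).sub ((hρ t ht).mul (hR1 t ht))
    refine this.congr_deriv ?_
    ring
  have hWle : ∀ t ∈ Icc a b, W t ≤ W a := by
    refine image_le_of_deriv_right_le_deriv_boundary (f := W)
      (f' := fun t => ρ2 t * R t - ρ t * R2 t) (B := fun _ => W a) (B' := fun _ => 0) ?_ ?_ le_rfl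
      continuousOn_const (fun t ht => hasDerivWithinAt_const _ _ _) ?_
    · exact fun t ht => (hWd t ht).continuousWithinAt
    · exact fun t ht => right_of_Icc ht (hWd t (Ico_subset_Icc_self ht))
    · intro t ht
      have := h2 t (Ico_subset_Icc_self ht)
      linarith
  have hqd : ∀ t ∈ Icc a b, HasDerivWithinAt (fun t => ρ t / R t) (W t / (R t) ^ 2) (Icc a b) t := by
    intro t ht
    exact (hρ t ht).div (hR t ht) (hRpos t ht).ne'
  have hq : ∀ t ∈ Icc a b, ρ t / R t ≤ ρ a / R a + |W a| / (R a) ^ 2 * (t - a) := by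
    refine image_le_of_deriv_right_le_deriv_boundary (f := fun t => ρ t / R t)
      (f' := fun t => W t / (R t) ^ 2)
      (B' := fun _ => |W a| / (R a) ^ 2) ?_ ?_ (by simp)
      (by fun_prop) (fun t ht => ?_) ?_
    · exact fun t ht => (hqd t ht).continuousWithinAt
    · exact fun t ht => right_of_Icc ht (hqd t (Ico_subset_Icc_self ht))
    · have := (((hasDerivAt_id t).sub_const a).const_mul (|W a| / (R a) ^ 2)).const_add (ρ a / R a)
      simpa using this.hasDerivWithinAt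
    · intro t ht
      have htI := Ico_subset_Icc_self ht
      have h3 := hWle t htI
      have h4 : W t ≤ |W a| := h3.trans (le_abs_self _)
      have hRt := hRpos t htI
      have h5 : (R a) ^ 2 ≤ (R t) ^ 2 := by
        have := hRmono t htI
        gcongr
      calc W t / (R t) ^ 2 ≤ |W a| / (R t) ^ 2 := by gcongr
        _ ≤ |W a| / (R a) ^ 2 := by gcongr
  intro t ht
  have h3 := hq t ht
  rw [div_le_iff₀ (hRpos t ht)] at h3
  refine h3.trans ?_
  have hRt := (hRpos t ht).le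
  gcongr
  rw [div_mul_eq_mul_div]
  gcongr
  exact ht.2

end Pool.Agent.H708R2.EulerTypeI
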