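import Pool.Agent.H708R2.EulerSign.Defs

/-!
# Definitions: vorticity, pressure Hessian, `C²` solutions, the Beale-Kato-Majda integral
-/

open MeasureTheory Set
open scoped ENNReal Topology

namespace Pool.Agent.H708R2.EulerTypeI

open Pool.Agent.H708R2.EulerSign

/-- The Euclidean norm. -/
noncomputable def nrm (y : V) : ℝ := Real.sqrt (y ⬝ᵥ y)

/-- The vorticity (curl) of the field `v` at `x`. -/
noncomputable def vort (v : V → V) (x : V) : V :=
  ![grad v x 2 1 - grad v x 1 2, grad v x 0 2 - grad v x 2 0, grad v x 1 0 - grad v x 0 1]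

/-- The direction `ξ = ω / |ω|` of the vorticity (`0` where the vorticity vanishes). -/
noncomputable def dirv (v : V → V) (x : V) : V := (nrm (vort v x))⁻¹ • vort v x

/-- The stretching rate `α = ξ · (∇v) ξ`. -/
noncomputable def stretch (v : V → V) (x : V) : ℝ := dirv v x ⬝ᵥ (grad v x).mulVec (dirv v x)

/-- The velocity `(∇v) ξ - α ξ` with which the vorticity direction turns along the flow. -/
noncomputable def turn (v : V → V) (x : V) : V :=
  (grad v x).mulVec (dirv v x) - stretch v x • dirv v x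

/-- The Hessian matrix of `p` at `x`. -/
noncomputable def hess (p : V → ℝ) (x : V) : Matrix (Fin 3) (Fin 3) ℝ :=
  Matrix.of fun i j => fderiv ℝ (fun y => fderiv ℝ p y (Pi.single i 1)) x (Pi.single j 1)

/-- The square of the Frobenius norm of the rate of strain tensor `S = (∇v + (∇v)ᵀ) / 2`. -/
noncomputable def strainSq (v : V → V) (x : V) : ℝ :=
  ∑ i, ∑ j, ((grad v x i j + grad v x j i) / 2) ^ 2

/-- `(u, p)` is a classical solution of the Euler equations on `𝕋³` on the time interval `[0, T)`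
which is of class `C²` on `(0, T) × ℝ³`. -/
structure IsC2Solution (T : ℝ) (u : ℝ → V → V) (p : ℝ → V → ℝ) : Prop where
  sol : IsClassicalSolution (Ico 0 T) u p
  u2 : ContDiffOn ℝ 2 (fun z : ℝ × V => u z.1 z.2) (Ioo 0 T ×ˢ univ)
  p2 : ContDiffOn ℝ 2 (fun z : ℝ × V => p z.1 z.2) (Ioo 0 T ×ˢ univ)

/-- `(u, p)` is a smooth, not necessarily periodic, solution of the Euler equations on `ℝ³` on the
time interval `[0, T)`. -/
structure IsSpaceSolution (T : ℝ) (u : ℝ → V → V) (p : ℝ → V → ℝ) : Prop where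
  smooth_u : ContDiffOn ℝ (⊤ : ℕ∞) (fun z : ℝ × V => u z.1 z.2) (Ico 0 T ×ˢ univ)
  smooth_p : ContDiffOn ℝ (⊤ : ℕ∞) (fun z : ℝ × V => p z.1 z.2) (Ico 0 T ×ˢ univ)
  div_free : ∀ t ∈ Ico 0 T, ∀ x, divergence (u t) x = 0
  momentum : ∀ t ∈ Ico 0 T, ∀ x i,
    derivWithin (fun s => u s x i) (Ico 0 T) t + ∑ j, u t x j * fderiv ℝ (u t) x (Pi.single j 1) i
      = - fderiv ℝ (p t) x (Pi.single i 1)

/-- The Beale-Kato-Majda integral `∫₀ᵀ sup_x |ω(t, x)| dt` is finite. -/
def BKMFinite (T : ℝ) (u : ℝ → V → V) : Prop :=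
  ∫⁻ t in Ioo 0 T, ⨆ x, ENNReal.ofReal (nrm (vort (u t) x)) < ∞

end Pool.Agent.H708R2.EulerTypeI
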