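import Pool.Agent.H708R2.EulerTypeI.Defs

/-!
# Definitions for the one-sided condition on the pressure
-/

namespace Pool.Agent.H708R2.EulerTypeI

open Pool.Agent.H708R2.EulerSign

/-- The one-sided condition `Δp / 2 + ξ · (D²p) ξ ≥ -m`, `ξ = ω / |ω|`, multiplied by `|ω|²`, for
the vorticity `w` and the pressure Hessian `H` at a point. -/
def PressureBelow (m : ℝ) (w : V) (H : Matrix (Fin 3) (Fin 3) ℝ) : Prop :=
  -m * (w ⬝ᵥ w) ≤ H.trace / 2 * (w ⬝ᵥ w) + w ⬝ᵥ H.mulVec w

/-- The additive constant in the bound of the stretching rate at time `t`. -/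
noncomputable def rateC (m t : ℝ) : ℝ := Real.sqrt (4 * m / 7) + 4 / (7 * t)

end Pool.Agent.H708R2.EulerTypeI
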