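import Pool.Agent.H708R2.EulerTypeI.Traj

/-!
# Existence of trajectories, uniform bounds, and comparison theorems for the vorticity
-/

open MeasureTheory Set
open scoped ENNReal NNReal Topology

namespace Pool.Agent.H708R2.EulerTypeI

open Pool.Agent.H708R2.EulerSign

variable {T : ℝ} {u : ℝ → V → V} {p : ℝ → V → ℝ}

/-- Continuous periodic functions are bounded on compact time intervals. -/
lemma bound_on_slab {F : Type*} [NormedAddCommGroup F] {f : ℝ → V → F} {a b : ℝ}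
    (hf : ContinuousOn (fun z : ℝ × V => f z.1 z.2) (Icc a b ×ˢ univ))
    (hper : ∀ t ∈ Icc a b, Periodic3 (f t)) :
    ∃ C : ℝ, 0 ≤ C ∧ ∀ t ∈ Icc a b, ∀ x, ‖f t x‖ ≤ C := by
  have hK : IsCompact (Icc a b ×ˢ closure Dom) := isCompact_Icc.prod dom_bdd.isCompact_closure
  obtain ⟨C, hC⟩ := hK.exists_bound_of_continuousOn
    (hf.mono (prod_mono subset_rfl (subset_univ _)))
  refine ⟨|C|, abs_nonneg C, fun t ht x => ?_⟩
  obtain ⟨g, hg, -⟩ := dom_exists_unique x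
  have h2 : (g +ᵥ x : V) = x + g := by rw [add_comm]; rfl
  have h3 : x + (g : V) ∈ closure Dom := by
    rw [← h2]; exact subset_closure hg
  have := hC (t, x + g) ⟨ht, h3⟩
  simp only at this
  rw [(hper t ht).lat g.2] at this
  exact this.trans (le_abs_self C)

/-- The gradient is continuous in space-time, up to the initial time. -/
lemma grad_continuousOn (h : IsClassicalSolution (Ico 0 T) u p) (i j : Fin 3) :
    ContinuousOn (fun z : ℝ × V => grad (u z.1) z.2 i j) (Ico 0 T ×ˢ univ) := by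
  have hu : UniqueDiffOn ℝ (Ico 0 T ×ˢ (univ : Set V)) :=
    (uniqueDiffOn_Ico 0 T).prod uniqueDiffOn_univ
  set U : ℝ × V → V := fun z => u z.1 z.2 with hU
  have hc : ContinuousOn (fun z => fderivWithin ℝ U (Ico 0 T ×ˢ univ) z (0, Pi.single j 1) i)
      (Ico 0 T ×ˢ univ) := by
    have h1 := (h.contDiffOn_u.continuousOn_fderivWithin hu le_rfl).clm_apply
      (continuousOn_const (c := ((0, Pi.single j 1) : ℝ × V)))
    exact (continuous_apply i).comp_continuousOn h1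
  refine hc.congr fun z hz => ?_
  obtain ⟨t, x⟩ := z
  have hd : HasFDerivWithinAt U (fderivWithin ℝ U (Ico 0 T ×ˢ univ) (t, x))
      (Ico 0 T ×ˢ univ) (t, x) :=
    ((h.contDiffOn_u.differentiableOn one_ne_zero) (t, x) hz).hasFDerivWithinAt
  have e : HasFDerivWithinAt (fun y : V => ((t, y) : ℝ × V)) (ContinuousLinearMap.inr ℝ ℝ V)
      univ x := (hasFDerivAt_prodMk_right t x).hasFDerivWithinAt
  have h2 := HasFDerivWithinAt.comp (g := U) (f := fun y : V => ((t, y) : ℝ × V)) x hd e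
    (fun y _ => ⟨hz.1, mem_univ _⟩)
  have h3 : fderiv ℝ (u t) x
      = fderivWithin ℝ U (Ico 0 T ×ˢ univ) (t, x) ∘L ContinuousLinearMap.inr ℝ ℝ V :=
    (hasFDerivWithinAt_univ.1 h2).fderiv
  show fderiv ℝ (u t) x (Pi.single j 1) i = _
  rw [h3]
  rfl

lemma grad_periodic (h : IsClassicalSolution (Ico 0 T) u p) {t : ℝ} (ht : t ∈ Ico 0 T)
    (i j : Fin 3) : Periodic3 (fun x => grad (u t) x i j) := by
  intro k x
  simp only
  rw [(h.periodic_u t ht).grad k x]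

/-- Entries of the gradient are bounded on compact time intervals. -/
lemma grad_bound (h : IsClassicalSolution (Ico 0 T) u p) {b : ℝ} (hb : b < T) :
    ∃ C : ℝ, 0 ≤ C ∧ ∀ t ∈ Icc 0 b, ∀ x i j, |grad (u t) x i j| ≤ C := by
  have hsub : Icc 0 b ⊆ Ico 0 T := Icc_subset_Ico_right hb
  have : ∀ i j, ∃ C : ℝ, 0 ≤ C ∧ ∀ t ∈ Icc 0 b, ∀ x, ‖grad (u t) x i j‖ ≤ C := fun i j =>
    bound_on_slab (f := fun t x => grad (u t) x i j)
      ((grad_continuousOn h i j).mono (prod_mono hsub subset_rfl))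
      (fun t ht => grad_periodic h (hsub ht) i j)
  choose C hC0 hC using this
  refine ⟨∑ i, ∑ j, C i j, Finset.sum_nonneg fun i _ => Finset.sum_nonneg fun j _ => hC0 i j,
    fun t ht x i j => (hC i j t ht x).trans ?_⟩
  calc C i j ≤ ∑ j, C i j := Finset.single_le_sum (f := fun j => C i j) (fun j _ => hC0 i j)
        (Finset.mem_univ j)
    _ ≤ ∑ i, ∑ j, C i j := Finset.single_le_sum (f := fun i => ∑ j, C i j)
        (fun i _ => Finset.sum_nonneg fun j _ => hC0 i j) (Finset.mem_univ i)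

/-- Existence of trajectories through a given point at the final time. -/
lemma exists_traj (h : IsClassicalSolution (Ico 0 T) u p) {a b : ℝ} (ha : 0 ≤ a) (hab : a ≤ b)
    (hb : b < T) (x : V) : ∃ X : ℝ → V, IsTraj u X a b ∧ X b = x := by
  have hsub : Icc a b ⊆ Ico 0 T := fun t ht => ⟨ha.trans ht.1, ht.2.trans_lt hb⟩
  obtain ⟨L, hL0, hL⟩ := bound_on_slab (f := u)
    (h.contDiffOn_u.continuousOn.mono (prod_mono hsub subset_rfl))
    (fun t ht => h.periodic_u t (hsub ht))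
  obtain ⟨K, hK0, hK⟩ := grad_bound h hb
  have hKt : ∀ t ∈ Icc a b, ∀ x, ‖fderiv ℝ (u t) x‖ ≤ 3 * K := by
    intro t ht x
    refine ContinuousLinearMap.opNorm_le_bound _ (by positivity) fun y => ?_
    rw [pi_norm_le_iff_of_nonneg (by positivity)]
    intro i
    rw [← sum_mul_clm, Real.norm_eq_abs]
    refine (Finset.abs_sum_le_sum_abs _ _).trans ?_
    have h0t : t ∈ Icc 0 b := ⟨ha.trans ht.1, ht.2⟩
    calc ∑ j, |y j * fderiv ℝ (u t) x (Pi.single j 1) i| ≤ ∑ _j : Fin 3, ‖y‖ * K := by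
          refine Finset.sum_le_sum fun j _ => ?_
          rw [abs_mul]
          gcongr
          · exact norm_le_pi_norm y j
          · exact hK t h0t x i j
      _ = 3 * K * ‖y‖ := by simp; ring
  have hPL : IsPicardLindelof u (⟨b, ⟨hab, le_rfl⟩⟩ : Icc a b) x
      (⟨L * (b - a), mul_nonneg hL0 (sub_nonneg.2 hab)⟩ : ℝ≥0) 0 (⟨L, hL0⟩ : ℝ≥0)
      (⟨3 * K, by positivity⟩ : ℝ≥0) := by
    refine ⟨fun t ht => ?_, fun y _ => ?_, fun t ht y _ => hL t ht y, ?_⟩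
    · have hd : Differentiable ℝ (u t) :=
        (contDiff_slice h.contDiffOn_u (hsub ht)).differentiable one_ne_zero
      refine LipschitzOnWith.mono (t := univ) ?_ (subset_univ _)
      exact Convex.lipschitzOnWith_of_nnnorm_fderiv_le (fun y _ => hd y)
        (fun y _ => hKt t ht y) convex_univ
    · exact h.contDiffOn_u.continuousOn.comp (f := fun t : ℝ => ((t, y) : ℝ × V))
        (by fun_prop) (fun t ht => ⟨hsub ht, mem_univ _⟩)
    · simp only [sub_self, NNReal.coe_zero, sub_zero]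
      rw [max_eq_right (sub_nonneg.2 hab)]
      exact le_rfl
  obtain ⟨X, hX1, hX2⟩ := hPL.exists_eq_forall_mem_Icc_hasDerivWithinAt₀
  exact ⟨X, hX2, hX1⟩

/-! ## Euclidean norm -/

lemma nrm_eq (y : V) : nrm y = ‖(WithLp.toLp 2 y : EuclideanSpace ℝ (Fin 3))‖ := by
  rw [EuclideanSpace.norm_eq]
  unfold nrm
  congr 1
  simp [dotProduct, sq]

lemma nrm_nonneg (y : V) : 0 ≤ nrm y := Real.sqrt_nonneg _

lemma dot_self_nonneg (y : V) : 0 ≤ y ⬝ᵥ y := by
  simp only [dotProduct]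
  exact Finset.sum_nonneg fun i _ => mul_self_nonneg _

lemma nrm_sq (y : V) : nrm y ^ 2 = y ⬝ᵥ y := Real.sq_sqrt (dot_self_nonneg y)

lemma nrm_eq_zero {y : V} (h : nrm y = 0) : y = 0 := by
  have h1 := nrm_sq y
  rw [h] at h1
  have h2 : ∑ i, y i * y i = 0 := by
    simpa [dotProduct] using h1.symm
  ext i
  have h3 := (Finset.sum_eq_zero_iff_of_nonneg (fun i _ => mul_self_nonneg (y i))).1 h2 i
    (Finset.mem_univ i)
  simpa using h3

lemma nrm_pos {y : V} (h : y ≠ 0) : 0 < nrm y :=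
  lt_of_le_of_ne (nrm_nonneg y) fun h0 => h (nrm_eq_zero h0.symm)

lemma nrm_neg (y : V) : nrm (-y) = nrm y := by
  unfold nrm; simp

lemma nrm_smul (c : ℝ) (y : V) : nrm (c • y) = |c| * nrm y := by
  unfold nrm
  rw [smul_dotProduct, dotProduct_smul, smul_eq_mul, smul_eq_mul, ← mul_assoc,
    Real.sqrt_mul (mul_self_nonneg c), Real.sqrt_mul_self_eq_abs]

lemma toLp_hasDerivWithinAt {y : ℝ → V} {y' : V} {s : Set ℝ} {t : ℝ}
    (h : HasDerivWithinAt y y' s t) :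
    HasDerivWithinAt (fun t => (WithLp.toLp 2 (y t) : EuclideanSpace ℝ (Fin 3)))
      (WithLp.toLp 2 y') s t := by
  have := ((PiLp.continuousLinearEquiv 2 ℝ (fun _ : Fin 3 => ℝ)).symm :
    (Fin 3 → ℝ) →L[ℝ] EuclideanSpace ℝ (Fin 3)).hasFDerivAt (x := y t)
  exact this.comp_hasDerivWithinAt t h

/-- Bounds for the vorticity and its stretching at one time. -/
lemma vort_bound (h : IsClassicalSolution (Ico 0 T) u p) {b : ℝ} (hb : b < T) :
    ∃ C : ℝ, 0 ≤ C ∧ ∀ t ∈ Icc 0 b, ∀ x, nrm (vort (u t) x) ≤ C ∧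
      nrm ((grad (u t) x).mulVec (vort (u t) x)) ≤ C ∧
      |vort (u t) x ⬝ᵥ (grad (u t) x).mulVec (vort (u t) x)| ≤
        C * (vort (u t) x ⬝ᵥ vort (u t) x) := by
  obtain ⟨K, hK0, hK⟩ := grad_bound h hb
  have hv : ∀ t ∈ Icc 0 b, ∀ x i, |vort (u t) x i| ≤ 2 * K := by
    intro t ht x i
    have e : ∀ i j k l, |grad (u t) x i j - grad (u t) x k l| ≤ 2 * K := by
      intro i j k l
      refine (abs_sub _ _).trans ?_
      have := hK t ht x i j
      have := hK t ht x k l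
      linarith
    fin_cases i
    · exact e 2 1 1 2
    · exact e 0 2 2 0
    · exact e 1 0 0 1
  have hn : ∀ (y : V) (c : ℝ), 0 ≤ c → (∀ i, |y i| ≤ c) → nrm y ≤ 2 * c := by
    intro y c hc hy
    unfold nrm
    rw [Real.sqrt_le_left (by positivity)]
    have : ∀ i, y i * y i ≤ c ^ 2 := by
      intro i
      rw [← sq, ← sq_abs]
      gcongr
      exact hy i
    simp only [dotProduct, Fin.sum_univ_three]
    nlinarith [this 0, this 1, this 2]
  refine ⟨max (2 * (2 * K)) (max (2 * (3 * (K * (2 * K)))) (3 * K)), by positivity,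
    fun t ht x => ⟨?_, ?_, ?_⟩⟩
  · exact (hn _ _ (by positivity) (hv t ht x)).trans (le_max_left _ _)
  · refine (hn _ (3 * (K * (2 * K))) (by positivity) fun i => ?_).trans
      ((le_max_left _ _).trans (le_max_right _ _))
    simp only [Matrix.mulVec, dotProduct]
    refine (Finset.abs_sum_le_sum_abs _ _).trans ?_
    calc ∑ j, |grad (u t) x i j * vort (u t) x j| ≤ ∑ _j : Fin 3, K * (2 * K) := by
          refine Finset.sum_le_sum fun j _ => ?_
          rw [abs_mul]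
          gcongr
          · exact hK t ht x i j
          · exact hv t ht x j
      _ = 3 * (K * (2 * K)) := by simp
  · have h1 := quad_bound (L := fderiv ℝ (u t) x) (K := K) (fun i j => hK t ht x i j)
      (vort (u t) x)
    have e1 : ∑ i, 2 * vort (u t) x i * fderiv ℝ (u t) x (vort (u t) x) i
        = 2 * (vort (u t) x ⬝ᵥ (grad (u t) x).mulVec (vort (u t) x)) := by
      simp only [dotProduct, Finset.mul_sum]
      refine Finset.sum_congr rfl fun i _ => ?_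
      rw [← sum_mul_clm]
      simp only [Matrix.mulVec, dotProduct, Finset.mul_sum]
      refine Finset.sum_congr rfl fun j _ => ?_
      show _ = 2 * (_ * (fderiv ℝ (u t) x (Pi.single j 1) i * _))
      ring
    have e2 : sq3 (vort (u t) x) = vort (u t) x ⬝ᵥ vort (u t) x := by
      simp [sq3, dotProduct, sq]
    rw [e1, e2, abs_mul, abs_two] at h1
    have h2 := dot_self_nonneg (vort (u t) x)
    have h3 : 3 * K ≤ max (2 * (2 * K)) (max (2 * (3 * (K * (2 * K)))) (3 * K)) :=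
      (le_max_right _ _).trans (le_max_right _ _)
    calc |vort (u t) x ⬝ᵥ (grad (u t) x).mulVec (vort (u t) x)|
        ≤ 3 * K * (vort (u t) x ⬝ᵥ vort (u t) x) := by linarith
      _ ≤ _ := by gcongr

/-- Two-sided comparison theorem for the vorticity. -/
theorem vort_comp (h : IsC2Solution T u p) {t₀ : ℝ} (ht₀ : t₀ ∈ Ioo 0 T) {R R1 R2 : ℝ → ℝ}
    (hR : ∀ t ∈ Ico t₀ T, HasDerivAt R (R1 t) t) (hR1 : ∀ t ∈ Ico t₀ T, HasDerivAt R1 (R2 t) t)
    (hRpos : ∀ t ∈ Ico t₀ T, 0 < R t) (hR1pos : ∀ t ∈ Ico t₀ T, 0 < R1 t)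
    (hR2 : ∀ t ∈ Ico t₀ T, 0 ≤ R2 t)
    (hyp : ∀ t ∈ Ico t₀ T, ∀ x, nrm ((hess (p t) x).mulVec (vort (u t) x))
      ≤ R2 t / R t * nrm (vort (u t) x)) :
    ∃ C : ℝ, 0 ≤ C ∧ ∀ t ∈ Ico t₀ T, ∀ x, nrm (vort (u t) x) ≤ C * R t := by
  obtain ⟨M, hM0, hM⟩ := vort_bound h.sol ht₀.2
  have h00 : t₀ ∈ Icc 0 t₀ := ⟨ht₀.1.le, le_rfl⟩
  have hI0 : t₀ ∈ Ico t₀ T := ⟨le_rfl, ht₀.2⟩
  have hRp := hRpos t₀ hI0
  have hR1p := hR1pos t₀ hI0
  refine ⟨M / R t₀ + M / R1 t₀, by positivity, fun t₁ ht₁ x => ?_⟩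
  obtain ⟨X, hX, hXx⟩ := exists_traj h.sol ht₀.1.le ht₁.1 ht₁.2 x
  have hsub : Icc t₀ t₁ ⊆ Ico t₀ T := Icc_subset_Ico_right ht₁.2
  have hsub2 : Icc t₀ t₁ ⊆ Ioo 0 T := fun t ht => ⟨ht₀.1.trans_le ht.1, ht.2.trans_lt ht₁.2⟩
  have key := comp_norm (a := t₀) (b := t₁) ht₁.1
    (y := fun t => (WithLp.toLp 2 (vort (u t) (X t)) : EuclideanSpace ℝ (Fin 3)))
    (y1 := fun t => WithLp.toLp 2 ((grad (u t) (X t)).mulVec (vort (u t) (X t))))
    (y2 := fun t => WithLp.toLp 2 (-(hess (p t) (X t)).mulVec (vort (u t) (X t))))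
    (R := R) (R1 := R1) (R2 := R2) (C := M / R t₀ + M / R1 t₀)
    (fun t ht => toLp_hasDerivWithinAt (vort_deriv h hX hsub2 ht))
    (fun t ht => toLp_hasDerivWithinAt (vort_deriv2 h hX hsub2 ht))
    (fun t ht => (hR t (hsub ht)).hasDerivWithinAt)
    (fun t ht => (hR1 t (hsub ht)).hasDerivWithinAt)
    (fun t ht => hRpos t (hsub ht)) (fun t ht => (hR1pos t (hsub ht)).le)
    (fun t ht => hR2 t (hsub ht)) ?_ ?_ ?_ t₁ ⟨ht₁.1, le_rfl⟩
  · simp only [← nrm_eq] at key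
    rwa [hXx] at key
  · intro t ht
    rw [← nrm_eq, ← nrm_eq, nrm_neg]
    exact hyp t (hsub ht) (X t)
  · rw [← nrm_eq]
    have := (hM t₀ h00 (X t₀)).1
    calc nrm (vort (u t₀) (X t₀)) ≤ M := this
      _ = M / R t₀ * R t₀ := by field_simp
      _ ≤ (M / R t₀ + M / R1 t₀) * R t₀ := by
        gcongr
        have : 0 ≤ M / R1 t₀ := by positivity
        linarith
  · rw [← nrm_eq]
    have := (hM t₀ h00 (X t₀)).2.1
    calc nrm ((grad (u t₀) (X t₀)).mulVec (vort (u t₀) (X t₀))) ≤ M := this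
      _ = M / R1 t₀ * R1 t₀ := by field_simp
      _ ≤ (M / R t₀ + M / R1 t₀) * R1 t₀ := by
        gcongr
        have : 0 ≤ M / R t₀ := by positivity
        linarith

/-- The vorticity does not vanish along a trajectory if it does not vanish at its end. -/
lemma vort_ne_zero (h : IsC2Solution T u p) {X : ℝ → V} {a b : ℝ} (hX : IsTraj u X a b)
    (hab : Icc a b ⊆ Ioo 0 T) (hb : vort (u b) (X b) ≠ 0) : ∀ t ∈ Icc a b, vort (u t) (X t) ≠ 0 := by
  intro t ht h0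
  apply hb
  have hbI : b ∈ Icc a b := ⟨ht.1.trans ht.2, le_rfl⟩
  obtain ⟨K, hK0, hK⟩ := grad_bound h.sol (hab hbI).2
  have hsub : Icc t b ⊆ Icc a b := Icc_subset_Icc_left ht.1
  have hc : ContinuousOn (fun t => vort (u t) (X t)) (Icc t b) := fun s hs =>
    ((vort_deriv h hX hab (hsub hs)).continuousWithinAt).mono hsub
  refine eq_zero_of_abs_deriv_le_mul_abs_self_of_eq_zero_right (K := 3 * K) hc
    (f' := fun s => (grad (u s) (X s)).mulVec (vort (u s) (X s))) ?_ h0 ?_ b ⟨ht.2, le_rfl⟩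
  · intro s hs
    exact right_of_Icc hs ((vort_deriv h hX hab (hsub (Ico_subset_Icc_self hs))).mono hsub)
  · intro s hs
    have hs' := hsub (Ico_subset_Icc_self hs)
    rw [pi_norm_le_iff_of_nonneg (by positivity)]
    intro i
    rw [Real.norm_eq_abs]
    simp only [Matrix.mulVec, dotProduct]
    refine (Finset.abs_sum_le_sum_abs _ _).trans ?_
    calc ∑ j, |grad (u s) (X s) i j * vort (u s) (X s) j|
        ≤ ∑ _j : Fin 3, K * ‖vort (u s) (X s)‖ := by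
          refine Finset.sum_le_sum fun j _ => ?_
          rw [abs_mul]
          gcongr
          · exact hK s ⟨(hab hs').1.le, hs'.2⟩ _ i j
          · exact norm_le_pi_norm (vort (u s) (X s)) j
      _ = 3 * K * ‖vort (u s) (X s)‖ := by simp; ring

/-- The quantity of the one-sided criteria. -/
noncomputable def crit (θ : ℝ) (v : V → V) (q : V → ℝ) (x : V) : ℝ :=
  turn v x ⬝ᵥ turn v x + (θ - 1) * stretch v x ^ 2 - dirv v x ⬝ᵥ (hess q x).mulVec (dirv v x)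

lemma crit_eq (θ : ℝ) {v : V → V} {q : V → ℝ} {x : V} (h0 : vort v x ≠ 0) :
    crit θ v q x * (vort v x ⬝ᵥ vort v x) ^ 2
      = ((grad v x).mulVec (vort v x) ⬝ᵥ (grad v x).mulVec (vort v x)) * (vort v x ⬝ᵥ vort v x)
        + (θ - 2) * (vort v x ⬝ᵥ (grad v x).mulVec (vort v x)) ^ 2
        - (vort v x ⬝ᵥ (hess q x).mulVec (vort v x)) * (vort v x ⬝ᵥ vort v x) := by
  have hn := nrm_pos h0
  have hsq := nrm_sq (vort v x)
  set n := nrm (vort v x) with hn'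
  set w := vort v x with hw
  set A := grad v x with hA
  set H := hess q x with hH
  have d1 : dirv v x = n⁻¹ • w := rfl
  have d2 : stretch v x = (w ⬝ᵥ A.mulVec w) / n ^ 2 := by
    unfold stretch
    rw [d1, Matrix.mulVec_smul, smul_dotProduct, dotProduct_smul, smul_eq_mul, smul_eq_mul, ← hA]
    field_simp
  have d3 : dirv v x ⬝ᵥ H.mulVec (dirv v x) = (w ⬝ᵥ H.mulVec w) / n ^ 2 := by
    rw [d1, Matrix.mulVec_smul, smul_dotProduct, dotProduct_smul, smul_eq_mul, smul_eq_mul]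
    field_simp
  have d4 : turn v x ⬝ᵥ turn v x
      = (A.mulVec w ⬝ᵥ A.mulVec w) / n ^ 2 - ((w ⬝ᵥ A.mulVec w) / n ^ 2) ^ 2 := by
    unfold turn
    rw [d2, d1, Matrix.mulVec_smul]
    simp only [sub_dotProduct, dotProduct_sub, smul_dotProduct, dotProduct_smul, smul_eq_mul]
    rw [dotProduct_comm (A.mulVec w) w, ← hsq]
    field_simp
    ring
  unfold crit
  rw [d2, d3, d4, ← hsq]
  field_simp
  ring

/-- One-sided comparison theorem for the vorticity. -/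
theorem vort_comp_one_sided (h : IsC2Solution T u p) {t₀ : ℝ} (ht₀ : t₀ ∈ Ioo 0 T) {θ : ℝ}
    (hθ : 0 < θ) {R R1 R2 : ℝ → ℝ}
    (hR : ∀ t ∈ Ico t₀ T, HasDerivAt R (R1 t) t) (hR1 : ∀ t ∈ Ico t₀ T, HasDerivAt R1 (R2 t) t)
    (hRpos : ∀ t ∈ Ico t₀ T, 0 < R t) (hR1pos : ∀ t ∈ Ico t₀ T, 0 ≤ R1 t)
    (hyp : ∀ t ∈ Ico t₀ T, ∀ x, vort (u t) x ≠ 0 →
      θ * crit θ (u t) (p t) x ≤ R2 t / R t) :
    ∃ C : ℝ, 0 ≤ C ∧ ∀ t ∈ Ico t₀ T, ∀ x, nrm (vort (u t) x) ^ θ ≤ C * R t := by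
  obtain ⟨M, hM0, hM⟩ := vort_bound h.sol ht₀.2
  have h00 : t₀ ∈ Icc 0 t₀ := ⟨ht₀.1.le, le_rfl⟩
  have hI0 : t₀ ∈ Ico t₀ T := ⟨le_rfl, ht₀.2⟩
  have hRp := hRpos t₀ hI0
  have hR1p := hR1pos t₀ hI0
  have hTt : 0 < T - t₀ := sub_pos.2 ht₀.2
  set B := M ^ θ with hB
  have hB0 : 0 ≤ B := Real.rpow_nonneg hM0 θ
  refine ⟨B / R t₀ + (θ * M * B * R t₀ + B * R1 t₀) * (T - t₀) / (R t₀) ^ 2, by positivity,
    fun t₁ ht₁ x => ?_⟩
  have hRt₁ := hRpos t₁ ht₁
  by_cases hx0 : vort (u t₁) x = 0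
  · rw [hx0]
    have : nrm (0 : V) = 0 := by simp [nrm]
    rw [this, Real.zero_rpow hθ.ne']
    positivity
  obtain ⟨X, hX, hXx⟩ := exists_traj h.sol ht₀.1.le ht₁.1 ht₁.2 x
  have hsub : Icc t₀ t₁ ⊆ Ico t₀ T := Icc_subset_Ico_right ht₁.2
  have hsub2 : Icc t₀ t₁ ⊆ Ioo 0 T := fun t ht => ⟨ht₀.1.trans_le ht.1, ht.2.trans_lt ht₁.2⟩
  have hne := vort_ne_zero h hX hsub2 (by rwa [hXx])
  -- abbreviations along the trajectory
  set y : ℝ → V := fun t => vort (u t) (X t) with hy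
  set y1 : ℝ → V := fun t => (grad (u t) (X t)).mulVec (vort (u t) (X t)) with hy1
  set y2 : ℝ → V := fun t => -(hess (p t) (X t)).mulVec (vort (u t) (X t)) with hy2
  have hyd : ∀ t ∈ Icc t₀ t₁, HasDerivWithinAt y (y1 t) (Icc t₀ t₁) t := fun t ht =>
    vort_deriv h hX hsub2 ht
  have hy1d : ∀ t ∈ Icc t₀ t₁, HasDerivWithinAt y1 (y2 t) (Icc t₀ t₁) t := fun t ht =>
    vort_deriv2 h hX hsub2 ht
  have hpos : ∀ t ∈ Icc t₀ t₁, 0 < y t ⬝ᵥ y t := by
    intro t ht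
    rw [← nrm_sq]
    have := nrm_pos (hne t ht)
    positivity
  have dotd : ∀ {f g : ℝ → V} {f' g' : V} {t : ℝ}, HasDerivWithinAt f f' (Icc t₀ t₁) t →
      HasDerivWithinAt g g' (Icc t₀ t₁) t →
      HasDerivWithinAt (fun t => f t ⬝ᵥ g t) (f' ⬝ᵥ g t + f t ⬝ᵥ g') (Icc t₀ t₁) t := by
    intro f g f' g' t hf hg
    have h1 : HasDerivWithinAt (fun t => ∑ i, f t i * g t i)
        (∑ i, (f' i * g t i + f t i * g' i)) (Icc t₀ t₁) t :=
      HasDerivWithinAt.fun_sum fun i _ =>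
        (hasDerivWithinAt_pi.1 hf i).mul (hasDerivWithinAt_pi.1 hg i)
    refine h1.congr_deriv ?_
    simp [dotProduct, Finset.sum_add_distrib]
  set ρ : ℝ → ℝ := fun t => (y t ⬝ᵥ y t) ^ (θ / 2) with hρ
  set ρ1 : ℝ → ℝ := fun t => θ * (y t ⬝ᵥ y t) ^ (θ / 2 - 1) * (y t ⬝ᵥ y1 t) with hρ1
  set ρ2 : ℝ → ℝ := fun t => θ * ((θ - 2) * (y t ⬝ᵥ y t) ^ (θ / 2 - 2) * (y t ⬝ᵥ y1 t) ^ 2
    + (y t ⬝ᵥ y t) ^ (θ / 2 - 1) * (y1 t ⬝ᵥ y1 t + y t ⬝ᵥ y2 t)) with hρ2
  have hρd : ∀ t ∈ Icc t₀ t₁, HasDerivWithinAt ρ (ρ1 t) (Icc t₀ t₁) t := by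
    intro t ht
    have h1 := dotd (hyd t ht) (hyd t ht)
    have h2 := h1.rpow_const (p := θ / 2) (Or.inl (hpos t ht).ne')
    refine h2.congr_deriv ?_
    simp only [hρ1]
    rw [dotProduct_comm (y1 t) (y t)]
    ring
  have hρ1d : ∀ t ∈ Icc t₀ t₁, HasDerivWithinAt ρ1 (ρ2 t) (Icc t₀ t₁) t := by
    intro t ht
    have h1 := dotd (hyd t ht) (hyd t ht)
    have h2 := (h1.rpow_const (p := θ / 2 - 1) (Or.inl (hpos t ht).ne')).const_mul θ
    have h3 := dotd (hyd t ht) (hy1d t ht)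
    refine (h2.mul h3).congr_deriv ?_
    simp only [hρ2]
    rw [dotProduct_comm (y1 t) (y t)]
    have e : θ / 2 - 1 - 1 = θ / 2 - 2 := by ring
    rw [e]
    ring
  have hcr : ∀ t ∈ Icc t₀ t₁, ρ2 t = θ * crit θ (u t) (p t) (X t) * ρ t := by
    intro t ht
    have hp0 := hpos t ht
    have h1 := crit_eq θ (v := u t) (q := p t) (x := X t) (hne t ht)
    have e1 : (y t ⬝ᵥ y t) ^ (θ / 2 - 1) = (y t ⬝ᵥ y t) ^ (θ / 2) / (y t ⬝ᵥ y t) := by
      rw [Real.rpow_sub_one hp0.ne']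
    have e2 : (y t ⬝ᵥ y t) ^ (θ / 2 - 2) = (y t ⬝ᵥ y t) ^ (θ / 2) / (y t ⬝ᵥ y t) ^ 2 := by
      rw [Real.rpow_sub hp0, Real.rpow_two]
    have e3 : crit θ (u t) (p t) (X t)
        = ((y1 t ⬝ᵥ y1 t) * (y t ⬝ᵥ y t) + (θ - 2) * (y t ⬝ᵥ y1 t) ^ 2
          + (y t ⬝ᵥ y2 t) * (y t ⬝ᵥ y t)) / (y t ⬝ᵥ y t) ^ 2 := by
      rw [eq_div_iff (by positivity), h1]
      simp only [hy2, dotProduct_neg]
      ring
    simp only [hρ2, hρ]
    rw [e1, e2, e3]
    field_simp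
    ring
  have hmonoR : ∀ t ∈ Icc t₀ t₁, R t₀ ≤ R t := by
    have hm : MonotoneOn R (Icc t₀ t₁) := by
      refine monotoneOn_of_deriv_nonneg (convex_Icc _ _) ?_ ?_ ?_
      · exact fun t ht => (hR t (hsub ht)).continuousAt.continuousWithinAt
      · intro t ht
        exact (hR t (hsub (interior_subset ht))).differentiableAt.differentiableWithinAt
      · intro t ht
        rw [(hR t (hsub (interior_subset ht))).deriv]
        exact hR1pos t (hsub (interior_subset ht))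
    intro t ht
    exact hm ⟨le_rfl, ht₁.1⟩ ht ht.1
  have hρ0 : ∀ t ∈ Icc t₀ t₁, 0 ≤ ρ t := fun t ht => Real.rpow_nonneg (hpos t ht).le _
  have key := comp_one_sided ht₁.1 hρd hρ1d
    (fun t ht => (hR t (hsub ht)).hasDerivWithinAt)
    (fun t ht => (hR1 t (hsub ht)).hasDerivWithinAt)
    (fun t ht => hRpos t (hsub ht)) hmonoR ?_ t₁ ⟨ht₁.1, le_rfl⟩
  · have hρnrm : ∀ t, ρ t = nrm (vort (u t) (X t)) ^ θ := by
      intro t
      simp only [hρ]
      rw [show y t ⬝ᵥ y t = nrm (vort (u t) (X t)) ^ (2 : ℝ) by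
        rw [Real.rpow_two, nrm_sq], ← Real.rpow_mul (nrm_nonneg _)]
      congr 1
      ring
    rw [hρnrm t₁, hXx] at key
    refine key.trans ?_
    have hI : t₀ ∈ Icc t₀ t₁ := ⟨le_rfl, ht₁.1⟩
    have b1 : ρ t₀ ≤ B := by
      rw [hρnrm t₀]
      exact Real.rpow_le_rpow (nrm_nonneg _) (hM t₀ h00 (X t₀)).1 hθ.le
    have b2 : |ρ1 t₀| ≤ θ * M * B := by
      have hp0 := hpos t₀ hI
      have h3 := (hM t₀ h00 (X t₀)).2.2
      simp only [hρ1]
      rw [abs_mul, abs_mul, abs_of_pos hθ, abs_of_nonneg (Real.rpow_nonneg hp0.le _)]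
      calc θ * (y t₀ ⬝ᵥ y t₀) ^ (θ / 2 - 1) * |y t₀ ⬝ᵥ y1 t₀|
          ≤ θ * (y t₀ ⬝ᵥ y t₀) ^ (θ / 2 - 1) * (M * (y t₀ ⬝ᵥ y t₀)) := by gcongr
        _ = θ * M * ρ t₀ := by
          simp only [hρ]
          rw [Real.rpow_sub_one hp0.ne']
          field_simp
        _ ≤ θ * M * B := by gcongr
    have b3 : |ρ1 t₀ * R t₀ - ρ t₀ * R1 t₀| ≤ θ * M * B * R t₀ + B * R1 t₀ := by
      refine (abs_sub _ _).trans ?_
      rw [abs_mul (ρ1 t₀) (R t₀), abs_mul (ρ t₀) (R1 t₀), abs_of_pos hRp, abs_of_nonneg hR1p,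
        abs_of_nonneg (hρ0 t₀ hI)]
      gcongr
    gcongr
    · have := ht₁.1; linarith
    · exact ht₁.2.le
  · intro t ht
    rw [hcr t ht]
    have h1 := hyp t (hsub ht) (X t) (hne t ht)
    rw [le_div_iff₀ (hRpos t (hsub ht))] at h1
    have h2 := hρ0 t ht
    nlinarith

end Pool.Agent.H708R2.EulerTypeI
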