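import Pool.Agent.H708R2.EulerTypeI.Rate

/-!
# Type I thresholds
-/

open MeasureTheory Set Filter
open scoped ENNReal NNReal Topology

namespace Pool.Agent.H708R2.EulerTypeI

open Pool.Agent.H708R2.EulerSign

variable {T : ℝ} {u : ℝ → V → V} {p : ℝ → V → ℝ}

/-- Choice of a starting time. -/
lemma exists_start (hT : 0 < T) {P : ℝ → Prop} (hP : ∀ᶠ t in 𝓝[<] T, P t) (Λ : ℝ) :
    ∃ t₀ ∈ Ioo 0 T, ∀ t ∈ Ico t₀ T, P t ∧ Λ ≤ Lf T t := by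
  have h1 : ∀ᶠ t in 𝓝[<] T, P t ∧ Λ ≤ Lf T t :=
    hP.and ((tendsto_Lf T).eventually (eventually_ge_atTop Λ))
  obtain ⟨l, hl, hl2⟩ := (mem_nhdsLT_iff_exists_Ioo_subset' (a := T) hT).1 h1
  refine ⟨max ((l + T) / 2) (T / 2), ⟨?_, ?_⟩, fun t ht => hl2 ⟨?_, ht.2⟩⟩
  · exact lt_max_of_lt_right (by linarith)
  · have : l < T := hl
    exact max_lt (by linarith) (by linarith)
  · have : l < T := hl
    have h2 : (l + T) / 2 ≤ t := (le_max_left _ _).trans ht.1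
    linarith

/-- The comparison principle. -/
theorem comparison (h : IsC2Solution T u p) {t₀ : ℝ} (ht₀ : t₀ ∈ Ioo 0 T) {R R1 R2 : ℝ → ℝ}
    (hR : ∀ t ∈ Ico t₀ T, HasDerivAt R (R1 t) t) (hR1 : ∀ t ∈ Ico t₀ T, HasDerivAt R1 (R2 t) t)
    (hRpos : ∀ t ∈ Ico t₀ T, 0 < R t) (hR1pos : ∀ t ∈ Ico t₀ T, 0 < R1 t)
    (hyp : ∀ t ∈ Ico t₀ T, ∀ x, R t * nrm ((hess (p t) x).mulVec (vort (u t) x))
      ≤ R2 t * nrm (vort (u t) x)) (hR2 : ∀ t ∈ Ico t₀ T, 0 ≤ R2 t) :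
    ∃ C : ℝ, ∀ t ∈ Ico t₀ T, ∀ x, nrm (vort (u t) x) ≤ C * R t := by
  obtain ⟨C, -, hC⟩ := vort_comp h ht₀ hR hR1 hRpos hR1pos hR2 (fun t ht x => by
    have := hRpos t ht
    rw [div_mul_eq_mul_div, le_div_iff₀ this, mul_comm]
    exact hyp t ht x)
  exact ⟨C, hC⟩

theorem type_one (hT : 0 < T) (h : IsC2Solution T u p) {κ : ℝ} (hκ : 3 < κ)
    (hyp : ∀ᶠ t in 𝓝[<] T, ∀ x, (T - t) ^ 2 * nrm ((hess (p t) x).mulVec (vort (u t) x))
      ≤ (2 - κ / Real.log (1 / (T - t))) * nrm (vort (u t) x)) :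
    (∃ C : ℝ, ∀ᶠ t in 𝓝[<] T, ∀ x,
      nrm (vort (u t) x) ≤ C / ((T - t) * Real.log (1 / (T - t)) ^ (κ / 3))) ∧
    BKMFinite T u := by
  obtain ⟨t₀, ht₀, hP⟩ := exists_start hT hyp (max 1 κ)
  have hL : ∀ t ∈ Ico t₀ T, 1 ≤ Lf T t ∧ κ ≤ Lf T t := fun t ht =>
    ⟨(le_max_left _ _).trans (hP t ht).2, (le_max_right _ _).trans (hP t ht).2⟩
  have hLpos : ∀ t ∈ Ico t₀ T, 0 < Lf T t := fun t ht => lt_of_lt_of_le one_pos (hL t ht).1
  have hκL : ∀ t ∈ Ico t₀ T, κ / Lf T t ≤ 1 := fun t ht =>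
    (div_le_one (hLpos t ht)).2 (hL t ht).2
  set β := κ / 3 with hβ
  have hβ1 : 1 < β := by rw [hβ]; linarith
  have hR1pos : ∀ t ∈ Ico t₀ T, 0 < Rf T 1 β t * ((1 - β / Lf T t) / (T - t)) := by
    intro t ht
    have h1 := hκL t ht
    have h2 : β / Lf T t = (κ / Lf T t) / 3 := by rw [hβ]; ring
    have h3 : 0 < 1 - β / Lf T t := by rw [h2]; linarith
    have h4 : 0 < T - t := sub_pos.2 ht.2
    have h5 := Rf_pos T 1 β t
    positivity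
  have hfac : ∀ t ∈ Ico t₀ T, 2 - κ / Lf T t ≤
      (1 * (1 + 1) - (2 * 1 + 1) * β / Lf T t + β * (β + 1) / (Lf T t) ^ 2) := by
    intro t ht
    have h1 := hLpos t ht
    have h2 : (2 * 1 + 1) * β / Lf T t = κ / Lf T t := by rw [hβ]; ring
    have h3 : 0 ≤ β * (β + 1) / (Lf T t) ^ 2 := by positivity
    rw [h2]
    linarith
  have hR2 : ∀ t ∈ Ico t₀ T, 0 ≤ Rf T 1 β t * ((1 * (1 + 1) - (2 * 1 + 1) * β / Lf T t
      + β * (β + 1) / (Lf T t) ^ 2) / (T - t) ^ 2) := by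
    intro t ht
    have h1 := hfac t ht
    have h2 := hκL t ht
    have h4 : 0 < T - t := sub_pos.2 ht.2
    have h5 := Rf_pos T 1 β t
    have h6 : 0 ≤ 1 * (1 + 1) - (2 * 1 + 1) * β / Lf T t + β * (β + 1) / (Lf T t) ^ 2 := by
      linarith
    positivity
  have hq : ∀ t ∈ Ico t₀ T, ∀ x, nrm ((hess (p t) x).mulVec (vort (u t) x)) ≤
      Rf T 1 β t * ((1 * (1 + 1) - (2 * 1 + 1) * β / Lf T t
      + β * (β + 1) / (Lf T t) ^ 2) / (T - t) ^ 2) / Rf T 1 β t * nrm (vort (u t) x) := by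
    intro t ht x
    have h1 := hfac t ht
    have h4 : 0 < T - t := sub_pos.2 ht.2
    have h5 := Rf_pos T 1 β t
    have h6 := (hP t ht).1 x
    rw [← Lf_eq] at h6
    have h7 := nrm_nonneg (vort (u t) x)
    rw [mul_div_cancel_left₀ _ h5.ne', div_mul_eq_mul_div, le_div_iff₀ (by positivity)]
    calc nrm ((hess (p t) x).mulVec (vort (u t) x)) * (T - t) ^ 2
        = (T - t) ^ 2 * nrm ((hess (p t) x).mulVec (vort (u t) x)) := by ring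
      _ ≤ (2 - κ / Lf T t) * nrm (vort (u t) x) := h6
      _ ≤ _ := by gcongr
  obtain ⟨C, hC0, hC⟩ := vort_comp h ht₀ (R := Rf T 1 β)
    (R1 := fun t => Rf T 1 β t * ((1 - β / Lf T t) / (T - t)))
    (R2 := fun t => Rf T 1 β t * ((1 * (1 + 1) - (2 * 1 + 1) * β / Lf T t
      + β * (β + 1) / (Lf T t) ^ 2) / (T - t) ^ 2))
    (fun t ht => Rf_hasDerivAt ht.2 (hLpos t ht)) (fun t ht => Rf_hasDerivAt2 ht.2 (hLpos t ht))
    (fun t _ => Rf_pos T 1 β t) hR1pos hR2 hq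
  -- rewriting the bound
  have hform : ∀ t ∈ Ico t₀ T, Rf T 1 β t = 1 / (T - t) * (Lf T t) ^ (-β) := by
    intro t ht
    have h1 := hLpos t ht
    have h4 : 0 < T - t := sub_pos.2 ht.2
    unfold Rf
    rw [one_mul, Real.exp_sub, mul_comm β, ← Real.rpow_def_of_pos h1, Real.rpow_neg h1.le,
      div_eq_mul_inv]
    congr 1
    rw [Lf, Real.exp_neg, Real.exp_log h4, one_div]
  have hfin : ∀ t ∈ Ico t₀ T, ∀ x,
      nrm (vort (u t) x) ≤ C * (1 / (T - t) * (Lf T t) ^ (-β)) := by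
    intro t ht x
    rw [← hform t ht]
    exact hC t ht x
  refine ⟨⟨C, ?_⟩, bkm_of_rate h.sol ht₀ hβ1 hLpos hfin⟩
  have hmem : Ico t₀ T ∈ 𝓝[<] T := Ico_mem_nhdsLT ht₀.2
  filter_upwards [hmem] with t ht x
  refine (hfin t ht x).trans (le_of_eq ?_)
  rw [← Lf_eq, Real.rpow_neg (hLpos t ht).le]
  have h4 : 0 < T - t := sub_pos.2 ht.2
  have h5 : 0 < (Lf T t) ^ β := Real.rpow_pos_of_pos (hLpos t ht) _
  field_simp

end Pool.Agent.H708R2.EulerTypeI
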