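import Pool.Agent.H708R2.EulerTypeI.Exist

/-!
# Type I rates
-/

open MeasureTheory Set
open scoped ENNReal NNReal Topology

namespace Pool.Agent.H708R2.EulerTypeI

open Pool.Agent.H708R2.EulerSign

variable {T : ℝ} {u : ℝ → V → V} {p : ℝ → V → ℝ}

/-- `log (1 / (T - t))`. -/
noncomputable def Lf (T t : ℝ) : ℝ := -Real.log (T - t)

lemma Lf_eq (T t : ℝ) : Lf T t = Real.log (1 / (T - t)) := by
  rw [Lf, one_div, Real.log_inv]

lemma Lf_hasDerivAt {t : ℝ} (ht : t < T) : HasDerivAt (Lf T) (1 / (T - t)) t := by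
  have h0 : T - t ≠ 0 := (sub_pos.2 ht).ne'
  have h1 : HasDerivAt (fun t => T - t) (-1) t := by
    simpa using (hasDerivAt_id t).const_sub T
  have h2 := (h1.log h0).neg
  refine h2.congr_deriv ?_
  rw [neg_div, neg_neg]

lemma tendsto_Lf (T : ℝ) : Filter.Tendsto (Lf T) (𝓝[<] T) Filter.atTop := by
  have h1 : Filter.Tendsto (fun t => T - t) (𝓝[<] T) (𝓝[>] 0) := by
    refine tendsto_nhdsWithin_of_tendsto_nhds_of_eventually_within _ ?_ ?_
    · have : Filter.Tendsto (fun t => T - t) (𝓝 T) (𝓝 (T - T)) :=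
        (continuous_const.sub continuous_id).tendsto T
      rw [sub_self] at this
      exact this.mono_left nhdsWithin_le_nhds
    · filter_upwards [self_mem_nhdsWithin] with t ht
      exact sub_pos.2 (mem_Iio.1 ht)
  have h2 := Real.tendsto_log_nhdsGT_zero.comp h1
  exact Filter.tendsto_neg_atBot_atTop.comp h2

/-- The comparison function `(T - t)^(-θ) log(1/(T-t))^(-β)`. -/
noncomputable def Rf (T θ β t : ℝ) : ℝ := Real.exp (θ * Lf T t - β * Real.log (Lf T t))

lemma Rf_pos (T θ β t : ℝ) : 0 < Rf T θ β t := Real.exp_pos _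

lemma Rf_hasDerivAt {θ β t : ℝ} (ht : t < T) (hL : 0 < Lf T t) :
    HasDerivAt (Rf T θ β) (Rf T θ β t * ((θ - β / Lf T t) / (T - t))) t := by
  have h1 := Lf_hasDerivAt ht
  have h2 := ((h1.const_mul θ).fun_sub ((h1.log hL.ne').const_mul β)).exp
  refine h2.congr_deriv ?_
  unfold Rf
  have := (sub_pos.2 ht).ne'
  field_simp

lemma Rf_hasDerivAt2 {θ β t : ℝ} (ht : t < T) (hL : 0 < Lf T t) :
    HasDerivAt (fun t => Rf T θ β t * ((θ - β / Lf T t) / (T - t)))
      (Rf T θ β t * ((θ * (θ + 1) - (2 * θ + 1) * β / Lf T t + β * (β + 1) / (Lf T t) ^ 2)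
        / (T - t) ^ 2)) t := by
  have h1 := Lf_hasDerivAt ht
  have hs : T - t ≠ 0 := (sub_pos.2 ht).ne'
  have h3 : HasDerivAt (fun t => T - t) (-1) t := by
    simpa using (hasDerivAt_id t).const_sub T
  have h4 : HasDerivAt (fun t => θ - β / Lf T t) (β / (Lf T t) ^ 2 * (1 / (T - t))) t := by
    have := ((hasDerivAt_const t β).div h1 hL.ne').const_sub θ
    refine this.congr_deriv ?_
    field_simp
    ring
  have h2 := (Rf_hasDerivAt (θ := θ) (β := β) ht hL).fun_mul (h4.fun_div h3 hs)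
  refine h2.congr_deriv ?_
  have := hL.ne'
  field_simp
  ring

/-- A bound by `C / ((T - t) log(1/(T-t))^γ)`, `γ > 1`, gives a finite Beale-Kato-Majda
integral. -/
lemma bkm_of_rate (h : IsClassicalSolution (Ico 0 T) u p) {t₀ : ℝ} (ht₀ : t₀ ∈ Ioo 0 T) {γ : ℝ}
    (hγ : 1 < γ) (hLpos : ∀ t ∈ Ico t₀ T, 0 < Lf T t) {C : ℝ}
    (hC : ∀ t ∈ Ico t₀ T, ∀ x, nrm (vort (u t) x) ≤ C * (1 / (T - t) * (Lf T t) ^ (-γ))) :
    BKMFinite T u := by
  obtain ⟨M, hM0, hM⟩ := vort_bound h ht₀.2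
  -- integrability near `T`
  have hint : IntegrableOn (fun t => 1 / (T - t) * (Lf T t) ^ (-γ)) (Ioc t₀ T) := by
    refine intervalIntegral.integrableOn_deriv_of_nonneg
      (g := fun t => -(Lf T t) ^ (1 - γ) / (γ - 1)) ?_ ?_ ?_
    · intro t ht
      rcases ht.2.lt_or_eq with hlt | heq
      · have hL := hLpos t ⟨ht.1, hlt⟩
        have h1 : HasDerivAt (fun t => -(Lf T t) ^ (1 - γ) / (γ - 1)) _ t :=
          (((Lf_hasDerivAt hlt).rpow_const (p := 1 - γ) (Or.inl hL.ne')).neg).div_const (γ - 1)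
        exact h1.continuousAt.continuousWithinAt
      · subst heq
        rw [← Ico_insert_right ht₀.2.le, continuousWithinAt_insert_self]
        have hLT : Lf t t = 0 := by simp [Lf]
        have h2 : Filter.Tendsto (fun s => -(Lf t s) ^ (1 - γ) / (γ - 1)) (𝓝[<] t)
            (𝓝 (-0 / (γ - 1))) := by
          have h3 : Filter.Tendsto (fun s => (Lf t s) ^ (-(γ - 1))) (𝓝[<] t) (𝓝 0) :=
            (tendsto_rpow_neg_atTop (sub_pos.2 hγ)).comp (tendsto_Lf t)
          have e : (1 - γ) = -(γ - 1) := by ring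
          rw [e]
          exact h3.neg.div_const _
        show Filter.Tendsto _ (𝓝[Ico t₀ t] t) (𝓝 (-(Lf t t) ^ (1 - γ) / (γ - 1)))
        rw [hLT, Real.zero_rpow (by linarith)]
        exact h2.mono_left (nhdsWithin_mono _ fun s hs => hs.2)
    · intro t ht
      have hL := hLpos t ⟨ht.1.le, ht.2⟩
      have h1 := (((Lf_hasDerivAt ht.2).rpow_const (p := 1 - γ) (Or.inl hL.ne')).neg).div_const
        (γ - 1)
      refine h1.congr_deriv ?_
      have e : 1 - γ - 1 = -γ := by ring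
      have e2 : γ - 1 ≠ 0 := by linarith
      rw [e]
      field_simp
      ring
    · intro t ht
      have hL := hLpos t ⟨ht.1.le, ht.2⟩
      have : 0 < T - t := sub_pos.2 ht.2
      positivity
  have hfin2 : ∫⁻ t in Ico t₀ T, ⨆ x, ENNReal.ofReal (nrm (vort (u t) x)) < ∞ := by
    have h1 : ∫⁻ t in Ico t₀ T, ⨆ x, ENNReal.ofReal (nrm (vort (u t) x))
        ≤ ∫⁻ t in Ico t₀ T, ENNReal.ofReal (C * (1 / (T - t) * (Lf T t) ^ (-γ))) := by
      refine setLIntegral_mono' measurableSet_Ico fun t ht => ?_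
      exact iSup_le fun x => ENNReal.ofReal_le_ofReal (hC t ht x)
    refine h1.trans_lt ?_
    have h2 : IntegrableOn (fun t => C * (1 / (T - t) * (Lf T t) ^ (-γ))) (Ico t₀ T) := by
      rw [integrableOn_Ico_iff_integrableOn_Ioo, ← integrableOn_Ioc_iff_integrableOn_Ioo]
      exact hint.const_mul C
    exact h2.lintegral_lt_top
  have hfin1 : ∫⁻ t in Ioo 0 t₀, ⨆ x, ENNReal.ofReal (nrm (vort (u t) x)) < ∞ := by
    have h1 : ∫⁻ t in Ioo 0 t₀, ⨆ x, ENNReal.ofReal (nrm (vort (u t) x))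
        ≤ ∫⁻ _t in Ioo 0 t₀, ENNReal.ofReal M := by
      refine setLIntegral_mono' measurableSet_Ioo fun t ht => ?_
      exact iSup_le fun x => ENNReal.ofReal_le_ofReal (hM t ⟨ht.1.le, ht.2.le⟩ x).1
    refine h1.trans_lt ?_
    rw [setLIntegral_const, Real.volume_Ioo]
    exact ENNReal.mul_lt_top ENNReal.ofReal_lt_top ENNReal.ofReal_lt_top
  unfold BKMFinite
  have hsplit : Ioo 0 T ⊆ Ioo 0 t₀ ∪ Ico t₀ T := by
    intro t ht
    by_cases h1 : t < t₀
    · exact Or.inl ⟨ht.1, h1⟩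
    · exact Or.inr ⟨not_lt.1 h1, ht.2⟩
  refine (lintegral_mono_set hsplit).trans_lt ?_
  refine (lintegral_union_le _ _ _).trans_lt ?_
  exact ENNReal.add_lt_top.2 ⟨hfin1, hfin2⟩

end Pool.Agent.H708R2.EulerTypeI
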