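import Pool.Agent.H708R2.EulerTypeI.Exist

/-!
# One-sided bounds for the pressure Hessian
-/

open MeasureTheory Set
open scoped ENNReal NNReal Topology

namespace Pool.Agent.H708R2.EulerTypeI

open Pool.Agent.H708R2.EulerSign

variable {T : ℝ} {u : ℝ → V → V} {p : ℝ → V → ℝ}

/-- Square of the Frobenius norm of the symmetric part. -/
noncomputable def symSq (A : Matrix (Fin 3) (Fin 3) ℝ) : ℝ :=
  ∑ i, ∑ j, ((A i j + A j i) / 2) ^ 2

lemma mulVec_cv (A : Matrix (Fin 3) (Fin 3) ℝ) (i : Fin 3) :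
    A.mulVec (cv A) i = ∑ j, (A i j + A j i) / 2 * cv A j := by
  fin_cases i <;> simp [Matrix.mulVec, dotProduct, cv, Fin.sum_univ_three] <;> ring

/-- `|S|² - |ω|²/2 = tr A²`. -/
lemma symSq_eq (A : Matrix (Fin 3) (Fin 3) ℝ) :
    symSq A = (A * A).trace + (cv A ⬝ᵥ cv A) / 2 := by
  simp [symSq, Matrix.trace, Matrix.mul_apply, cv, dotProduct, Fin.sum_univ_three]
  ring

/-- The key algebraic inequality `|S|² ≥ 2 |S ξ|² - (ξ · S ξ)² / 2` for trace-free `S`. -/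
lemma sym_ineq {s : Fin 3 → Fin 3 → ℝ} (hs : ∀ i j, s i j = s j i)
    (htr : s 0 0 + s 1 1 + s 2 2 = 0) (w : V) {c : V} (hc : ∀ i, c i = ∑ j, s i j * w j) :
    0 ≤ (w ⬝ᵥ w) ^ 2 * ((w ⬝ᵥ w) ^ 2 * (∑ i, ∑ j, s i j ^ 2) - 2 * (w ⬝ᵥ w) * (c ⬝ᵥ c)
      + (w ⬝ᵥ c) ^ 2 / 2) := by
  set n := w ⬝ᵥ w with hn
  set P := w ⬝ᵥ c with hP
  have hn' : n = w 0 * w 0 + w 1 * w 1 + w 2 * w 2 := by simp [hn, dotProduct, Fin.sum_univ_three]
  have hP' : P = w 0 * c 0 + w 1 * c 1 + w 2 * c 2 := by simp [hP, dotProduct, Fin.sum_univ_three]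
  have c0 : c 0 = s 0 0 * w 0 + s 0 1 * w 1 + s 0 2 * w 2 := by
    rw [hc 0, Fin.sum_univ_three]
  have c1 : c 1 = s 0 1 * w 0 + s 1 1 * w 1 + s 1 2 * w 2 := by
    rw [hc 1, Fin.sum_univ_three, hs 1 0]
  have c2 : c 2 = s 0 2 * w 0 + s 1 2 * w 1 + s 2 2 * w 2 := by
    rw [hc 2, Fin.sum_univ_three, hs 2 0, hs 2 1]
  have key : n ^ 2 * (n ^ 2 * (∑ i, ∑ j, s i j ^ 2) - 2 * n * (c ⬝ᵥ c) + P ^ 2 / 2)
      = (n ^ 2 * s 0 0 - n * (2 * w 0 * c 0) + P / 2 * (w 0 * w 0 + n)) ^ 2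
        + (n ^ 2 * s 1 1 - n * (2 * w 1 * c 1) + P / 2 * (w 1 * w 1 + n)) ^ 2
        + (n ^ 2 * s 2 2 - n * (2 * w 2 * c 2) + P / 2 * (w 2 * w 2 + n)) ^ 2
        + 2 * (n ^ 2 * s 0 1 - n * (w 0 * c 1 + c 0 * w 1) + P / 2 * (w 0 * w 1)) ^ 2
        + 2 * (n ^ 2 * s 0 2 - n * (w 0 * c 2 + c 0 * w 2) + P / 2 * (w 0 * w 2)) ^ 2
        + 2 * (n ^ 2 * s 1 2 - n * (w 1 * c 2 + c 1 * w 2) + P / 2 * (w 1 * w 2)) ^ 2 := by
    have h22 : s 2 2 = -s 0 0 - s 1 1 := by linarith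
    have hcc : c ⬝ᵥ c = c 0 * c 0 + c 1 * c 1 + c 2 * c 2 := by
      simp [dotProduct, Fin.sum_univ_three]
    simp only [Fin.sum_univ_three, hs 1 0, hs 2 0, hs 2 1]
    rw [hcc, hn', hP', c0, c1, c2, h22]
    ring
  rw [key]
  positivity

/-- The Laplacian of the pressure. -/
lemma trace_hess (h : IsC2Solution T u p) {t : ℝ} (ht : t ∈ Ioo 0 T) (x : V) :
    (hess (p t) x).trace = -(grad (u t) x * grad (u t) x).trace := by
  have h2 : t / 2 < t := by linarith [ht.1]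
  obtain ⟨X, hX, hXx⟩ := exists_traj h.sol (by linarith [ht.1] : (0 : ℝ) ≤ t / 2) h2.le ht.2 x
  have hab : Icc (t / 2) t ⊆ Ioo 0 T := fun s hs => ⟨by linarith [hs.1, ht.1], hs.2.trans_lt ht.2⟩
  have htI : t ∈ Icc (t / 2) t := ⟨h2.le, le_rfl⟩
  have hd := fun i => grad_deriv h hX hab htI i i
  have h3 : HasDerivWithinAt (fun s => ∑ i, grad (u s) (X s) i i)
      (∑ i, (-(grad (u t) (X t) * grad (u t) (X t)) i i - hess (p t) (X t) i i))
      (Icc (t / 2) t) t := HasDerivWithinAt.fun_sum fun i _ => hd i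
  have h4 : HasDerivWithinAt (fun s => ∑ i, grad (u s) (X s) i i) 0 (Icc (t / 2) t) t := by
    refine (hasDerivWithinAt_const t (Icc (t / 2) t) (0 : ℝ)).congr ?_ ?_
    · intro s hs
      exact h.sol.div_free s ⟨(hab hs).1.le, (hab hs).2⟩ (X s)
    · exact h.sol.div_free t ⟨ht.1.le, ht.2⟩ (X t)
  have h5 := (uniqueDiffOn_Icc h2 t htI).eq_deriv _ h3 h4
  rw [hXx] at h5
  have h6 : (hess (p t) x).trace = ∑ i, hess (p t) x i i := rfl
  have h7 : (grad (u t) x * grad (u t) x).trace = ∑ i, (grad (u t) x * grad (u t) x) i i := rfl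
  rw [h6, h7, ← Finset.sum_neg_distrib, ← sub_eq_zero, ← Finset.sum_sub_distrib]
  have h8 : ∑ i, (hess (p t) x i i - -(grad (u t) x * grad (u t) x) i i)
      = -∑ i, (-(grad (u t) x * grad (u t) x) i i - hess (p t) x i i) := by
    rw [← Finset.sum_neg_distrib]
    exact Finset.sum_congr rfl fun i _ => by ring
  rw [h8, h5, neg_zero]

/-- The pointwise inequality behind the Riccati inequality for the stretching rate. -/
lemma riccati_pointwise (h : IsC2Solution T u p) {t : ℝ} (ht : t ∈ Ioo 0 T) (x : V) {m : ℝ}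
    (h0 : vort (u t) x ≠ 0)
    (hm : -m * (vort (u t) x ⬝ᵥ vort (u t) x) ≤
      (hess (p t) x).trace / 2 * (vort (u t) x ⬝ᵥ vort (u t) x)
        + vort (u t) x ⬝ᵥ (hess (p t) x).mulVec (vort (u t) x)) :
    ((grad (u t) x).mulVec (vort (u t) x) ⬝ᵥ (grad (u t) x).mulVec (vort (u t) x)
        + vort (u t) x ⬝ᵥ (-(hess (p t) x).mulVec (vort (u t) x)))
        * (vort (u t) x ⬝ᵥ vort (u t) x)
      - 2 * (vort (u t) x ⬝ᵥ (grad (u t) x).mulVec (vort (u t) x)) ^ 2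
    ≤ (vort (u t) x ⬝ᵥ vort (u t) x) ^ 3 / 4 + m * (vort (u t) x ⬝ᵥ vort (u t) x) ^ 2
      - 7 / 4 * (vort (u t) x ⬝ᵥ (grad (u t) x).mulVec (vort (u t) x)) ^ 2 := by
  have htI : t ∈ Ico 0 T := ⟨ht.1.le, ht.2⟩
  have hdiv : (grad (u t) x).trace = 0 := h.sol.div_free t htI x
  have htr := trace_hess h ht x
  rw [vort_eq] at h0 hm ⊢
  set A := grad (u t) x with hA
  set H := hess (p t) x with hH
  set w := cv A with hw
  have hN : 0 < w ⬝ᵥ w := by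
    rw [← nrm_sq]
    have := nrm_pos h0
    positivity
  have hk := sym_ineq (s := fun i j => (A i j + A j i) / 2) (fun i j => by ring)
    (by
      have : A 0 0 + A 1 1 + A 2 2 = 0 := by
        simpa [Matrix.trace, Fin.sum_univ_three] using hdiv
      linarith) w (c := A.mulVec w) (fun i => mulVec_cv A i)
  have hS := symSq_eq A
  unfold symSq at hS
  rw [hS] at hk
  set N := w ⬝ᵥ w with hN'
  set G := A.mulVec w ⬝ᵥ A.mulVec w with hG
  set P := w ⬝ᵥ A.mulVec w with hP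
  have hk2 : 0 ≤ N ^ 2 * ((A * A).trace + N / 2) - 2 * N * G + P ^ 2 / 2 := by
    by_contra hcon
    push Not at hcon
    have h3 := mul_neg_of_pos_of_neg (pow_pos hN 2) hcon
    linarith
  rw [dotProduct_neg]
  rw [htr] at hm
  have hm2 := mul_le_mul_of_nonneg_right hm hN.le
  nlinarith [hk2, hm2]

end Pool.Agent.H708R2.EulerTypeI
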