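import Pool.Agent.H708R2.EulerTypeI.Semi
import Pool.Agent.H708R2.EulerTypeI.Defs2

/-!
# One-sided bounds for the pressure Hessian: the stretching rate and the blow-up rate
-/

open MeasureTheory Set
open scoped ENNReal NNReal Topology

namespace Pool.Agent.H708R2.EulerTypeI

open Pool.Agent.H708R2.EulerSign

variable {T : ℝ} {u : ℝ → V → V} {p : ℝ → V → ℝ}

/-- A function with nonpositive derivative wherever it is positive stays nonpositive. -/
lemma nonpos_of_deriv {a b : ℝ} (hab : a ≤ b) {φ φ' : ℝ → ℝ}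
    (hφ : ∀ t ∈ Icc a b, HasDerivWithinAt φ (φ' t) (Icc a b) t) (h0 : φ a ≤ 0)
    (hneg : ∀ t ∈ Icc a b, 0 < φ t → φ' t ≤ 0) : φ b ≤ 0 := by
  refine le_of_forall_pos_le_add fun δ hδ => ?_
  set e := δ / (1 + (b - a)) with he
  have hba : 0 ≤ b - a := sub_nonneg.2 hab
  have he0 : 0 < e := by positivity
  have key := image_le_of_deriv_right_lt_deriv_boundary (f := φ) (f' := φ')
    (B := fun t => e * (1 + (t - a))) (B' := fun _ => e) (a := a) (b := b)
    (fun t ht => (hφ t ht).continuousWithinAt)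
    (fun t ht => right_of_Icc ht (hφ t (Ico_subset_Icc_self ht))) (by simp; linarith)
    (fun t => by
      have := (((hasDerivAt_id t).sub_const a).const_add 1).const_mul e
      simpa using this)
    (fun t ht heq => by
      have h1 : 0 < φ t := by
        rw [heq]
        have : 0 ≤ t - a := sub_nonneg.2 ht.1
        positivity
      exact (hneg t (Ico_subset_Icc_self ht) h1).trans_lt he0)
    (x := b) ⟨hab, le_rfl⟩
  refine key.trans (le_of_eq ?_)
  rw [he, zero_add]
  field_simp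

/-- The stretching rate is controlled along a trajectory. -/
lemma stretch_traj (h : IsC2Solution T u p) {X : ℝ → V} {a b m : ℝ} (hm0 : 0 ≤ m)
    (hX : IsTraj u X a b) (hab : a ≤ b) (hI : Icc a b ⊆ Ioo 0 T)
    (hne : vort (u b) (X b) ≠ 0)
    (hm : ∀ t ∈ Icc a b, PressureBelow m (vort (u t) (X t)) (hess (p t) (X t))) :
    (b - a) * ((vort (u b) (X b) ⬝ᵥ (grad (u b) (X b)).mulVec (vort (u b) (X b)))
      / (vort (u b) (X b) ⬝ᵥ vort (u b) (X b))
      - nrm (vort (u b) (X b)) / Real.sqrt 11 - Real.sqrt (4 * m / 7)) ≤ 4 / 7 := by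
  have hne' := vort_ne_zero h hX hI hne
  set y : ℝ → V := fun t => vort (u t) (X t) with hy
  set y1 : ℝ → V := fun t => (grad (u t) (X t)).mulVec (vort (u t) (X t)) with hy1
  set y2 : ℝ → V := fun t => -(hess (p t) (X t)).mulVec (vort (u t) (X t)) with hy2
  have hyd : ∀ t ∈ Icc a b, HasDerivWithinAt y (y1 t) (Icc a b) t := fun t ht =>
    vort_deriv h hX hI ht
  have hy1d : ∀ t ∈ Icc a b, HasDerivWithinAt y1 (y2 t) (Icc a b) t := fun t ht =>
    vort_deriv2 h hX hI ht
  have hpos : ∀ t ∈ Icc a b, 0 < y t ⬝ᵥ y t := by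
    intro t ht
    rw [← nrm_sq]
    have := nrm_pos (hne' t ht)
    positivity
  have dotd : ∀ {f g : ℝ → V} {f' g' : V} {t : ℝ}, HasDerivWithinAt f f' (Icc a b) t →
      HasDerivWithinAt g g' (Icc a b) t →
      HasDerivWithinAt (fun t => f t ⬝ᵥ g t) (f' ⬝ᵥ g t + f t ⬝ᵥ g') (Icc a b) t := by
    intro f g f' g' t hf hg
    have h1 : HasDerivWithinAt (fun t => ∑ i, f t i * g t i)
        (∑ i, (f' i * g t i + f t i * g' i)) (Icc a b) t :=
      HasDerivWithinAt.fun_sum fun i _ =>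
        (hasDerivWithinAt_pi.1 hf i).mul (hasDerivWithinAt_pi.1 hg i)
    refine h1.congr_deriv ?_
    simp [dotProduct, Finset.sum_add_distrib]
  set s := Real.sqrt 11 with hs
  have hs0 : 0 < s := Real.sqrt_pos.2 (by norm_num)
  have hs2 : s ^ 2 = 11 := Real.sq_sqrt (by norm_num)
  set M := Real.sqrt (4 * m / 7) with hM
  have hM0 : 0 ≤ M := Real.sqrt_nonneg _
  have hM2 : M ^ 2 = 4 * m / 7 := Real.sq_sqrt (by positivity)
  set α : ℝ → ℝ := fun t => (y t ⬝ᵥ y1 t) / (y t ⬝ᵥ y t) with hα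
  set z : ℝ → ℝ := fun t => nrm (y t) with hz
  have hz0 : ∀ t ∈ Icc a b, 0 < z t := fun t ht => nrm_pos (hne' t ht)
  have hz2 : ∀ t, z t ^ 2 = y t ⬝ᵥ y t := fun t => nrm_sq (y t)
  set α' : ℝ → ℝ := fun t => ((y1 t ⬝ᵥ y1 t + y t ⬝ᵥ y2 t) * (y t ⬝ᵥ y t)
    - 2 * (y t ⬝ᵥ y1 t) ^ 2) / (y t ⬝ᵥ y t) ^ 2 with hα'
  have hαd : ∀ t ∈ Icc a b, HasDerivWithinAt α (α' t) (Icc a b) t := by
    intro t ht
    have h1 := dotd (hyd t ht) (hy1d t ht)
    have h2 := dotd (hyd t ht) (hyd t ht)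
    refine (h1.div h2 (hpos t ht).ne').congr_deriv ?_
    simp only [hα']
    rw [dotProduct_comm (y1 t) (y t)]
    ring
  have hzd : ∀ t ∈ Icc a b, HasDerivWithinAt z (α t * z t) (Icc a b) t := by
    intro t ht
    have h2 := dotd (hyd t ht) (hyd t ht)
    have h3 : HasDerivWithinAt z _ (Icc a b) t := h2.sqrt (hpos t ht).ne'
    refine h3.congr_deriv ?_
    have e1 : Real.sqrt (y t ⬝ᵥ y t) = z t := rfl
    have e2 := hz0 t ht
    rw [e1, dotProduct_comm (y1 t) (y t)]
    simp only [hα]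
    rw [← hz2 t]
    field_simp
    ring
  have hineq : ∀ t ∈ Icc a b, α' t ≤ z t ^ 2 / 4 + m - 7 / 4 * α t ^ 2 := by
    intro t ht
    have h1 := riccati_pointwise h (hI ht) (X t) (hne' t ht) (hm t ht)
    have h2 := hpos t ht
    simp only [hα', hα]
    rw [hz2 t, div_le_iff₀ (by positivity)]
    have e : (y t ⬝ᵥ y t / 4 + m - 7 / 4 * ((y t ⬝ᵥ y1 t) / (y t ⬝ᵥ y t)) ^ 2)
        * (y t ⬝ᵥ y t) ^ 2
        = (y t ⬝ᵥ y t) ^ 3 / 4 + m * (y t ⬝ᵥ y t) ^ 2 - 7 / 4 * (y t ⬝ᵥ y1 t) ^ 2 := by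
      field_simp
    rw [e]
    exact h1
  set q : ℝ → ℝ := fun t => α t - z t / s with hq
  have hqd : ∀ t ∈ Icc a b, HasDerivWithinAt q (α' t - α t * z t / s) (Icc a b) t :=
    fun t ht => (hαd t ht).sub ((hzd t ht).div_const s)
  have hqineq : ∀ t ∈ Icc a b, 0 ≤ q t → α' t - α t * z t / s ≤ m - 7 / 4 * q t ^ 2 := by
    intro t ht h0
    have h1 := hineq t ht
    have h2 := hz0 t ht
    have e1 : α t = q t + z t / s := by simp [hq]
    have e2 : (z t / s) ^ 2 = z t ^ 2 / 11 := by rw [div_pow, hs2]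
    have h3 : 0 ≤ z t / s := by positivity
    have e3 : α t * z t / s = α t * (z t / s) := by ring
    rw [e3]
    rw [e1] at h1 ⊢
    have h4 := mul_nonneg h0 h3
    nlinarith
  have key := nonpos_of_deriv hab (φ := fun t => (t - a) * (q t - M) - 4 / 7)
    (φ' := fun t => (q t - M) + (t - a) * (α' t - α t * z t / s)) ?_ (by norm_num) ?_
  · have key' : (b - a) * (q b - M) - 4 / 7 ≤ 0 := key
    have e : (b - a) * ((vort (u b) (X b) ⬝ᵥ (grad (u b) (X b)).mulVec (vort (u b) (X b)))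
      / (vort (u b) (X b) ⬝ᵥ vort (u b) (X b))
      - nrm (vort (u b) (X b)) / s - M) = (b - a) * (q b - M) := rfl
    rw [e]
    linarith
  · intro t ht
    have h1 : HasDerivWithinAt (fun t => t - a) 1 (Icc a b) t :=
      (hasDerivWithinAt_id t _).sub_const a
    have h2 := (h1.mul ((hqd t ht).sub_const M)).sub_const (4 / 7)
    refine h2.congr_deriv ?_
    ring
  · intro t ht hpos'
    have hpos'' : 0 < (t - a) * (q t - M) - 4 / 7 := hpos'
    have hta : 0 ≤ t - a := sub_nonneg.2 ht.1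
    have h1 : 4 / 7 < (t - a) * (q t - M) := by linarith
    have h2 : 0 < q t - M := by
      by_contra hcon
      push Not at hcon
      have := mul_nonpos_of_nonneg_of_nonpos hta hcon
      linarith
    have h3 := hqineq t ht (by linarith)
    have h4 : (t - a) * (α' t - α t * z t / s) ≤ (t - a) * (m - 7 / 4 * q t ^ 2) :=
      mul_le_mul_of_nonneg_left h3 hta
    have h5 : m - 7 / 4 * q t ^ 2 = -(7 / 4) * ((q t - M) * (q t + M)) := by
      have : m = 7 / 4 * M ^ 2 := by rw [hM2]; ring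
      rw [this]
      ring
    have h6 : (t - a) * (m - 7 / 4 * q t ^ 2)
        = -(7 / 4) * ((t - a) * (q t - M)) * (q t + M) := by rw [h5]; ring
    have h7 : q t - M ≤ q t + M := by linarith
    have h8 : (4 / 7) * (q t - M) ≤ ((t - a) * (q t - M)) * (q t + M) := by
      calc (4 / 7) * (q t - M) ≤ ((t - a) * (q t - M)) * (q t - M) := by gcongr
        _ ≤ _ := by gcongr
    linarith

lemma rateC_pos {m t : ℝ} (ht : 0 < t) : 0 < rateC m t := by
  unfold rateC
  have := Real.sqrt_nonneg (4 * m / 7)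
  positivity

/-- The a priori bound for the stretching rate. -/
theorem stretch_bound (h : IsC2Solution T u p) {m : ℝ} (hm0 : 0 ≤ m)
    (hm : ∀ t ∈ Ioo 0 T, ∀ x, PressureBelow m (vort (u t) x) (hess (p t) x))
    {t : ℝ} (ht : t ∈ Ioo 0 T) (x : V) :
    vort (u t) x ⬝ᵥ (grad (u t) x).mulVec (vort (u t) x)
      ≤ (nrm (vort (u t) x) / Real.sqrt 11 + rateC m t) * (vort (u t) x ⬝ᵥ vort (u t) x) := by
  by_cases h0 : vort (u t) x = 0
  · simp [h0]
  set w := vort (u t) x with hw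
  have hN : 0 < w ⬝ᵥ w := by
    rw [← nrm_sq]
    have := nrm_pos h0
    positivity
  set Q := (w ⬝ᵥ (grad (u t) x).mulVec w) / (w ⬝ᵥ w) - nrm w / Real.sqrt 11
    - Real.sqrt (4 * m / 7) with hQ
  have key : ∀ a ∈ Ioo 0 t, (t - a) * Q ≤ 4 / 7 := by
    intro a ha
    obtain ⟨X, hX, hXx⟩ := exists_traj h.sol ha.1.le ha.2.le ht.2 x
    have hI : Icc a t ⊆ Ioo 0 T := fun s hs => ⟨ha.1.trans_le hs.1, hs.2.trans_lt ht.2⟩
    have := stretch_traj h hm0 hX ha.2.le hI (by rwa [hXx]) (fun s hs => hm s (hI hs) _)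
    rwa [hXx] at this
  have hQt : t * Q ≤ 4 / 7 := by
    by_contra hcon
    push Not at hcon
    have hQ0 : 0 < Q := by
      by_contra h1
      push Not at h1
      have := mul_nonpos_of_nonneg_of_nonpos ht.1.le h1
      linarith
    set a := (t * Q - 4 / 7) / (2 * Q) with ha
    have ha0 : 0 < a := by
      have : 0 < t * Q - 4 / 7 := by linarith
      positivity
    have haQ : a * Q = (t * Q - 4 / 7) / 2 := by
      rw [ha]
      field_simp
    have hat : a < t := by
      by_contra h2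
      push Not at h2
      have := mul_le_mul_of_nonneg_right h2 hQ0.le
      linarith
    have := key a ⟨ha0, hat⟩
    nlinarith
  have hQ2 : Q ≤ 4 / (7 * t) := by
    rw [le_div_iff₀ (by have := ht.1; positivity)]
    linarith
  have h3 : (w ⬝ᵥ (grad (u t) x).mulVec w) / (w ⬝ᵥ w)
      ≤ nrm w / Real.sqrt 11 + rateC m t := by
    unfold rateC
    linarith
  rwa [div_le_iff₀ hN] at h3

/-- The lower bound for the blow-up rate. -/
theorem rate_bound (h : IsC2Solution T u p) {m : ℝ} (hm0 : 0 ≤ m)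
    (hm : ∀ t ∈ Ioo 0 T, ∀ x, PressureBelow m (vort (u t) x) (hess (p t) x))
    {t₁ : ℝ} (ht₁ : t₁ ∈ Ioo 0 T) {Z : ℝ} (hZ0 : 0 < Z)
    (hZ : Z < Real.sqrt 11 * rateC m t₁ / (Real.exp (rateC m t₁ * (T - t₁)) - 1))
    (hZx : ∀ x, nrm (vort (u t₁) x) ≤ Z) :
    ∃ M : ℝ, ∀ t ∈ Ico 0 T, ∀ x, nrm (vort (u t) x) ≤ M := by
  obtain ⟨M₀, hM₀, hM⟩ := vort_bound h.sol ht₁.2
  set C := rateC m t₁ with hC
  have hC0 : 0 < C := rateC_pos ht₁.1
  set s := Real.sqrt 11 with hs
  have hs0 : 0 < s := Real.sqrt_pos.2 (by norm_num)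
  have hT1 : 0 < T - t₁ := sub_pos.2 ht₁.2
  set E := Real.exp (C * (T - t₁)) with hE
  have hE1 : 1 < E := Real.one_lt_exp_iff.2 (by positivity)
  set δ := 1 / Z - (E - 1) / (C * s) with hδ
  have hδ0 : 0 < δ := by
    rw [lt_div_iff₀ (by linarith)] at hZ
    rw [hδ, sub_pos, div_lt_div_iff₀ (by positivity) hZ0]
    nlinarith
  have key : ∀ b ∈ Ico t₁ T, ∀ x, nrm (vort (u b) x) ≤ E / δ := by
    intro b hb x
    by_cases h0 : vort (u b) x = 0
    · rw [h0]
      have : nrm (0 : V) = 0 := by simp [nrm]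
      rw [this]
      positivity
    obtain ⟨X, hX, hXx⟩ := exists_traj h.sol ht₁.1.le hb.1 hb.2 x
    have hI : Icc t₁ b ⊆ Ioo 0 T := fun r hr => ⟨ht₁.1.trans_le hr.1, hr.2.trans_lt hb.2⟩
    have hne := vort_ne_zero h hX hI (by rwa [hXx])
    set z : ℝ → ℝ := fun t => nrm (vort (u t) (X t)) with hz
    have hz0 : ∀ t ∈ Icc t₁ b, 0 < z t := fun t ht => nrm_pos (hne t ht)
    have hz2 : ∀ t, z t ^ 2 = vort (u t) (X t) ⬝ᵥ vort (u t) (X t) := fun t => nrm_sq _
    set α : ℝ → ℝ := fun t => (vort (u t) (X t) ⬝ᵥ (grad (u t) (X t)).mulVec (vort (u t) (X t)))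
      / (z t) ^ 2 with hα
    have hzd : ∀ t ∈ Icc t₁ b, HasDerivWithinAt z (α t * z t) (Icc t₁ b) t := by
      intro t ht
      have hd := vort_deriv h hX hI ht
      have h1 : HasDerivWithinAt (fun t => ∑ i, vort (u t) (X t) i * vort (u t) (X t) i)
          (∑ i, ((grad (u t) (X t)).mulVec (vort (u t) (X t)) i * vort (u t) (X t) i
            + vort (u t) (X t) i * (grad (u t) (X t)).mulVec (vort (u t) (X t)) i))
          (Icc t₁ b) t :=
        HasDerivWithinAt.fun_sum fun i _ =>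
          (hasDerivWithinAt_pi.1 hd i).mul (hasDerivWithinAt_pi.1 hd i)
      have h2 : ∑ i, vort (u t) (X t) i * vort (u t) (X t) i = z t ^ 2 := (hz2 t).symm
      have h3 : HasDerivWithinAt z _ (Icc t₁ b) t := h1.sqrt (by
        rw [h2]
        have := hz0 t ht
        positivity)
      refine h3.congr_deriv ?_
      have e2 := hz0 t ht
      rw [h2, Real.sqrt_sq e2.le]
      simp only [hα]
      rw [Finset.sum_add_distrib]
      have e3 : ∑ i, (grad (u t) (X t)).mulVec (vort (u t) (X t)) i * vort (u t) (X t) i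
          = vort (u t) (X t) ⬝ᵥ (grad (u t) (X t)).mulVec (vort (u t) (X t)) := by
        simp only [dotProduct]
        exact Finset.sum_congr rfl fun i _ => mul_comm _ _
      have e4 : ∑ i, vort (u t) (X t) i * (grad (u t) (X t)).mulVec (vort (u t) (X t)) i
          = vort (u t) (X t) ⬝ᵥ (grad (u t) (X t)).mulVec (vort (u t) (X t)) := rfl
      rw [e3, e4]
      field_simp
      ring
    have hαle : ∀ t ∈ Icc t₁ b, α t ≤ z t / s + C := by
      intro t ht
      have h1 := stretch_bound h hm0 hm (hI ht) (X t)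
      have h2 := hz0 t ht
      simp only [hα]
      rw [div_le_iff₀ (by positivity), hz2 t]
      refine h1.trans ?_
      rw [← hz2 t]
      have h3 : rateC m t ≤ C := by
        rw [hC]
        unfold rateC
        have := ht₁.1
        gcongr
        exact ht.1
      gcongr
    -- the function `exp (C (t - t₁)) / z + (exp (C (t - t₁)) - 1) / (C s)` is nondecreasing
    have hcont : ∀ t ∈ Icc t₁ b, HasDerivWithinAt
        (fun t => -(Real.exp (C * (t - t₁)) * (z t)⁻¹ + (Real.exp (C * (t - t₁)) - 1) / (C * s)))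
        (-(Real.exp (C * (t - t₁)) * (C * (z t)⁻¹ - α t * (z t)⁻¹ + 1 / s))) (Icc t₁ b) t := by
      intro t ht
      have h2 := hz0 t ht
      have h1 : HasDerivWithinAt (fun t => Real.exp (C * (t - t₁)))
          (Real.exp (C * (t - t₁)) * C) (Icc t₁ b) t := by
        have := ((((hasDerivAt_id t).sub_const t₁).const_mul C).exp).hasDerivWithinAt
          (s := Icc t₁ b)
        simpa using this
      have h3 := ((h1.mul ((hzd t ht).inv h2.ne')).add ((h1.sub_const 1).div_const (C * s))).neg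
      refine h3.congr_deriv ?_
      simp only [Pi.inv_apply]
      field_simp
      ring
    have hmono := image_le_of_deriv_right_le_deriv_boundary
      (f := fun t => -(Real.exp (C * (t - t₁)) * (z t)⁻¹
        + (Real.exp (C * (t - t₁)) - 1) / (C * s)))
      (f' := fun t => -(Real.exp (C * (t - t₁)) * (C * (z t)⁻¹ - α t * (z t)⁻¹ + 1 / s)))
      (B := fun _ => -(1 / Z)) (B' := fun _ => 0) (a := t₁) (b := b)
      (fun t ht => (hcont t ht).continuousWithinAt)
      (fun t ht => right_of_Icc ht (hcont t (Ico_subset_Icc_self ht))) ?_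
      continuousOn_const (fun t _ => hasDerivWithinAt_const _ _ _) ?_ (x := b) ⟨hb.1, le_rfl⟩
    · -- conclusion
      have hzb := hz0 b ⟨hb.1, le_rfl⟩
      have e1 : Real.exp (C * (b - t₁)) ≤ E := by
        rw [hE]
        have := hb.2.le
        gcongr
      have e2 : (Real.exp (C * (b - t₁)) - 1) / (C * s) ≤ (E - 1) / (C * s) := by gcongr
      have e3 : δ ≤ Real.exp (C * (b - t₁)) * (z b)⁻¹ := by
        rw [hδ]
        linarith
      have e4 : δ ≤ E * (z b)⁻¹ := e3.trans (by gcongr)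
      have e5 : z b ≤ E / δ := by
        rw [le_div_iff₀ hδ0]
        rw [← div_eq_mul_inv, le_div_iff₀ hzb] at e4
        linarith
      have e6 : z b = nrm (vort (u b) x) := by simp only [hz]; rw [hXx]
      rwa [e6] at e5
    · simp only [sub_self, mul_zero, Real.exp_zero, one_mul, zero_div, add_zero]
      rw [neg_le_neg_iff, one_div]
      have h1 := hz0 t₁ ⟨le_rfl, hb.1⟩
      exact inv_anti₀ h1 (hZx (X t₁))
    · intro t ht
      have ht' := Ico_subset_Icc_self ht
      have h2 := hz0 t ht'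
      have h3 := hαle t ht'
      have h4 : 0 ≤ C * (z t)⁻¹ - α t * (z t)⁻¹ + 1 / s := by
        have e : C * (z t)⁻¹ - α t * (z t)⁻¹ + 1 / s = (z t / s + C - α t) * (z t)⁻¹ := by
          field_simp
          ring
        rw [e]
        have : 0 ≤ z t / s + C - α t := by linarith
        positivity
      have := mul_nonneg (Real.exp_pos (C * (t - t₁))).le h4
      linarith
  refine ⟨max M₀ (E / δ), fun t ht x => ?_⟩
  by_cases h1 : t ≤ t₁
  · exact ((hM t ⟨ht.1, h1⟩ x).1).trans (le_max_left _ _)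
  · exact (key t ⟨(not_le.1 h1).le, ht.2⟩ x).trans (le_max_right _ _)

/-- The main statement. -/
theorem semi_main (h : IsC2Solution T u p) {m : ℝ} (hm0 : 0 ≤ m)
    (hm : ∀ t ∈ Ioo 0 T, ∀ x, PressureBelow m (vort (u t) x) (hess (p t) x)) :
    (∀ t ∈ Ioo 0 T, ∀ x, vort (u t) x ⬝ᵥ (grad (u t) x).mulVec (vort (u t) x)
      ≤ (nrm (vort (u t) x) / Real.sqrt 11 + rateC m t) * (vort (u t) x ⬝ᵥ vort (u t) x)) ∧
    ((∃ M : ℝ, ∀ t ∈ Ico 0 T, ∀ x, nrm (vort (u t) x) ≤ M) ∨
      ∀ t ∈ Ioo 0 T, ∀ Z, Z < Real.sqrt 11 * rateC m t / (Real.exp (rateC m t * (T - t)) - 1) →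
        ∃ x, Z < nrm (vort (u t) x)) := by
  refine ⟨fun t ht x => stretch_bound h hm0 hm ht x, ?_⟩
  by_cases hb : ∃ M : ℝ, ∀ t ∈ Ico 0 T, ∀ x, nrm (vort (u t) x) ≤ M
  · exact Or.inl hb
  right
  intro t ht Z hZ
  by_contra hcon
  push Not at hcon
  apply hb
  set L := Real.sqrt 11 * rateC m t / (Real.exp (rateC m t * (T - t)) - 1) with hL
  have hL0 : 0 < L := by
    have h1 := rateC_pos (m := m) ht.1
    have h2 : 0 < T - t := sub_pos.2 ht.2
    have h3 : 1 < Real.exp (rateC m t * (T - t)) := Real.one_lt_exp_iff.2 (by positivity)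
    have h4 : 0 < Real.exp (rateC m t * (T - t)) - 1 := by linarith
    have h5 : 0 < Real.sqrt 11 := Real.sqrt_pos.2 (by norm_num)
    positivity
  exact rate_bound h hm0 hm ht (Z := max Z (L / 2)) (lt_max_of_lt_right (by positivity))
    (max_lt hZ (by linarith)) (fun x => (hcon x).trans (le_max_left _ _))

end Pool.Agent.H708R2.EulerTypeI
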