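import Pool.Agent.H708R2.EulerTypeI.Rate

/-!
# Sharpness of the constants: linear flows
-/

open MeasureTheory Set Filter
open scoped ENNReal NNReal Topology

namespace Pool.Agent.H708R2.EulerTypeI

open Pool.Agent.H708R2.EulerSign

variable {T : ℝ}

/-- `1 + log T + log (1/(T-t))`, at least `1` on `[0, T)`. -/
noncomputable def lf (T t : ℝ) : ℝ := Lf T t + (1 + Real.log T)

lemma lf_ge {t : ℝ} (ht : t ∈ Ico 0 T) : 1 ≤ lf T t := by
  have h1 : 0 < T - t := sub_pos.2 ht.2
  have h2 : Real.log (T - t) ≤ Real.log T := Real.log_le_log h1 (by linarith [ht.1])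
  unfold lf Lf
  linarith

/-- The vorticity of the linear flow. -/
noncomputable def yf (T t : ℝ) : ℝ := ((T - t) * lf T t)⁻¹

/-- The stretching rate of the linear flow. -/
noncomputable def af (T t : ℝ) : ℝ := (1 - (lf T t)⁻¹) * (T - t)⁻¹

/-- The derivative of the stretching rate. -/
noncomputable def bf (T t : ℝ) : ℝ := (1 - (lf T t)⁻¹ + ((lf T t)⁻¹) ^ 2) * ((T - t)⁻¹) ^ 2

/-- The linear flow. -/
noncomputable def uf (T t : ℝ) (x : V) : V :=
  ![-(af T t / 2) * x 0 - yf T t / 2 * x 1, yf T t / 2 * x 0 - af T t / 2 * x 1, af T t * x 2]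

/-- The coefficient of `x₀² + x₁²` in twice the pressure. -/
noncomputable def hf (T t : ℝ) : ℝ := bf T t / 2 - af T t ^ 2 / 4 + yf T t ^ 2 / 4

/-- The pressure of the linear flow. -/
noncomputable def pf (T t : ℝ) (x : V) : ℝ :=
  (hf T t * (x 0 ^ 2 + x 1 ^ 2) - (bf T t + af T t ^ 2) * x 2 ^ 2) / 2

lemma lf_hasDerivAt {t : ℝ} (ht : t < T) : HasDerivAt (lf T) ((T - t)⁻¹) t := by
  have := (Lf_hasDerivAt ht).add_const (1 + Real.log T)
  rwa [one_div] at this

lemma yf_hasDerivAt {t : ℝ} (ht : t ∈ Ico 0 T) : HasDerivAt (yf T) (af T t * yf T t) t := by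
  have h1 := lf_hasDerivAt ht.2
  have h2 := lf_ge ht
  have h3 : HasDerivAt (fun t => T - t) (-1) t := by
    simpa using (hasDerivAt_id t).const_sub T
  have hs : 0 < T - t := sub_pos.2 ht.2
  have h4 := (h3.fun_mul h1).inv (by positivity)
  refine h4.congr_deriv ?_
  unfold af yf
  field_simp
  ring

lemma af_hasDerivAt {t : ℝ} (ht : t ∈ Ico 0 T) : HasDerivAt (af T) (bf T t) t := by
  have h1 := lf_hasDerivAt ht.2
  have h2 := lf_ge ht
  have h3 : HasDerivAt (fun t => T - t) (-1) t := by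
    simpa using (hasDerivAt_id t).const_sub T
  have hs : 0 < T - t := sub_pos.2 ht.2
  have h4 := ((h1.fun_inv (by positivity)).const_sub 1).fun_mul (h3.fun_inv hs.ne')
  refine h4.congr_deriv ?_
  unfold bf
  field_simp
  ring

/-- The velocity gradient of the linear flow. -/
noncomputable def Af (T t : ℝ) : Matrix (Fin 3) (Fin 3) ℝ :=
  !![-(af T t / 2), -(yf T t / 2), 0; yf T t / 2, -(af T t / 2), 0; 0, 0, af T t]

lemma uf_eq (T t : ℝ) : uf T t = (Af T t).mulVec := by
  ext x i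
  fin_cases i <;> simp [uf, Af, Matrix.mulVec, dotProduct, Fin.sum_univ_three] <;> ring

lemma uf_fderiv (T t : ℝ) (x : V) :
    HasFDerivAt (uf T t) (Matrix.mulVecLin (Af T t)).toContinuousLinearMap x := by
  rw [uf_eq]
  exact (Matrix.mulVecLin (Af T t)).toContinuousLinearMap.hasFDerivAt

lemma uf_fderiv_apply (T t : ℝ) (x : V) (i j : Fin 3) :
    fderiv ℝ (uf T t) x (Pi.single j 1) i = Af T t i j := by
  rw [(uf_fderiv T t x).fderiv]
  simp

lemma uf_grad (T t : ℝ) (x : V) : grad (uf T t) x = Af T t := by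
  ext i j
  exact uf_fderiv_apply T t x i j

lemma uf_vort (T t : ℝ) (x : V) : vort (uf T t) x = ![0, 0, yf T t] := by
  unfold vort
  rw [uf_grad]
  ext i
  fin_cases i <;> simp [Af]

/-- The eigenvalues of the pressure Hessian of the linear flow. -/
noncomputable def df (T t : ℝ) : V := ![hf T t, hf T t, -(bf T t + af T t ^ 2)]

lemma pf_fderiv (T t : ℝ) (x : V) (i : Fin 3) :
    fderiv ℝ (pf T t) x (Pi.single i 1) = df T t i * x i := by
  have h0 : ∀ i : Fin 3, HasFDerivAt (fun x : V => x i) (ContinuousLinearMap.proj i : V →L[ℝ] ℝ) x :=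
    fun i => (ContinuousLinearMap.proj i : V →L[ℝ] ℝ).hasFDerivAt
  have h1 : HasFDerivAt (pf T t) _ x :=
    (((((h0 0).pow 2).add ((h0 1).pow 2)).const_mul (hf T t)).sub
      (((h0 2).pow 2).const_mul (bf T t + af T t ^ 2))).mul_const (1 / 2) |>.congr_of_eventuallyEq
      (Eventually.of_forall fun y => by simp [pf]; ring)
  rw [h1.fderiv]
  fin_cases i <;> simp [df] <;> ring

lemma pf_hess (T t : ℝ) (x : V) : hess (pf T t) x = Matrix.diagonal (df T t) := by
  ext i j
  show fderiv ℝ (fun y => fderiv ℝ (pf T t) y (Pi.single i 1)) x (Pi.single j 1) = _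
  have h0 : (fun y => fderiv ℝ (pf T t) y (Pi.single i 1)) = fun y => df T t i * y i := by
    funext y; exact pf_fderiv T t y i
  have h1 : HasFDerivAt (fun y : V => df T t i * y i)
      (df T t i • (ContinuousLinearMap.proj i : V →L[ℝ] ℝ)) x :=
    ((ContinuousLinearMap.proj i : V →L[ℝ] ℝ).hasFDerivAt (x := x)).const_mul (df T t i)
  rw [h0, h1.fderiv]
  by_cases hij : i = j
  · subst hij; simp
  · simp [Matrix.diagonal_apply_ne _ hij, Pi.single_eq_of_ne hij]

lemma contDiffOn_lf : ContDiffOn ℝ (⊤ : ℕ∞) (fun z : ℝ × V => (lf T z.1)⁻¹) (Ico 0 T ×ˢ univ) := by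
  have h1 : ContDiffOn ℝ (⊤ : ℕ∞) (fun z : ℝ × V => T - z.1) (Ico 0 T ×ˢ univ) := by fun_prop
  have h2 : ContDiffOn ℝ (⊤ : ℕ∞) (fun z : ℝ × V => lf T z.1) (Ico 0 T ×ˢ univ) :=
    (h1.log (fun z hz => (sub_pos.2 hz.1.2).ne')).neg.add contDiffOn_const
  exact h2.inv (fun z hz => (lt_of_lt_of_le one_pos (lf_ge hz.1)).ne')

lemma contDiffOn_inv : ContDiffOn ℝ (⊤ : ℕ∞) (fun z : ℝ × V => (T - z.1)⁻¹)
    (Ico 0 T ×ˢ univ) := by
  have h1 : ContDiffOn ℝ (⊤ : ℕ∞) (fun z : ℝ × V => T - z.1) (Ico 0 T ×ˢ univ) := by fun_prop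
  exact h1.inv (fun z hz => (sub_pos.2 hz.1.2).ne')

lemma contDiffOn_af : ContDiffOn ℝ (⊤ : ℕ∞) (fun z : ℝ × V => af T z.1) (Ico 0 T ×ˢ univ) :=
  (contDiffOn_const.sub contDiffOn_lf).mul contDiffOn_inv

lemma contDiffOn_bf : ContDiffOn ℝ (⊤ : ℕ∞) (fun z : ℝ × V => bf T z.1) (Ico 0 T ×ˢ univ) :=
  ((contDiffOn_const.sub contDiffOn_lf).add (contDiffOn_lf.pow 2)).mul (contDiffOn_inv.pow 2)

lemma contDiffOn_yf : ContDiffOn ℝ (⊤ : ℕ∞) (fun z : ℝ × V => yf T z.1) (Ico 0 T ×ˢ univ) :=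
  (contDiffOn_inv.mul contDiffOn_lf).congr fun z _ => by simp [yf, mul_comm]

lemma contDiffOn_hf : ContDiffOn ℝ (⊤ : ℕ∞) (fun z : ℝ × V => hf T z.1) (Ico 0 T ×ˢ univ) := by
  unfold hf
  exact ((contDiffOn_bf.div_const 2).sub ((contDiffOn_af.pow 2).div_const 4)).add
    ((contDiffOn_yf.pow 2).div_const 4)

lemma contDiff_coord (i : Fin 3) : ContDiff ℝ (⊤ : ℕ∞) (fun z : ℝ × V => z.2 i) :=
  (ContinuousLinearMap.proj (R := ℝ) (φ := fun _ : Fin 3 => ℝ) i).contDiff.comp contDiff_snd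

/-- The linear flow solves the Euler equations. -/
theorem uf_solution (T : ℝ) : IsSpaceSolution T (uf T) (pf T) := by
  have c : ∀ i : Fin 3, ContDiffOn ℝ (⊤ : ℕ∞) (fun z : ℝ × V => z.2 i) (Ico 0 T ×ˢ univ) :=
    fun i => (contDiff_coord i).contDiffOn
  refine ⟨?_, ?_, ?_, ?_⟩
  · rw [contDiffOn_pi]
    intro i
    fin_cases i
    · exact ((contDiffOn_af.div_const 2).neg.mul (c 0)).sub ((contDiffOn_yf.div_const 2).mul (c 1))
    · exact ((contDiffOn_yf.div_const 2).mul (c 0)).sub ((contDiffOn_af.div_const 2).mul (c 1))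
    · exact contDiffOn_af.mul (c 2)
  · unfold pf
    exact ((contDiffOn_hf.mul (((c 0).pow 2).add ((c 1).pow 2))).sub
      ((contDiffOn_bf.add (contDiffOn_af.pow 2)).mul ((c 2).pow 2))).div_const 2
  · intro t _ x
    unfold divergence
    rw [uf_grad]
    simp [Matrix.trace, Fin.sum_univ_three, Af]
    ring
  · intro t ht x i
    simp only [uf_fderiv_apply, pf_fderiv]
    have hu : UniqueDiffWithinAt ℝ (Ico 0 T) t := uniqueDiffOn_Ico 0 T t ht
    have ha := (af_hasDerivAt ht).hasDerivWithinAt (s := Ico 0 T)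
    have hy := (yf_hasDerivAt ht).hasDerivWithinAt (s := Ico 0 T)
    fin_cases i
    · have h1 : HasDerivWithinAt (fun s => uf T s x 0) _ (Ico 0 T) t :=
        ((ha.div_const 2).neg.mul_const (x 0)).sub ((hy.div_const 2).mul_const (x 1))
      simp only [Fin.zero_eta, Fin.isValue]
      rw [h1.derivWithin hu]
      simp [Fin.sum_univ_three, uf, Af, df, hf]
      ring
    · have h1 : HasDerivWithinAt (fun s => uf T s x 1) _ (Ico 0 T) t :=
        ((hy.div_const 2).mul_const (x 0)).sub ((ha.div_const 2).mul_const (x 1))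
      simp only [Fin.mk_one, Fin.isValue]
      rw [h1.derivWithin hu]
      simp [Fin.sum_univ_three, uf, Af, df, hf]
      ring
    · have h1 : HasDerivWithinAt (fun s => uf T s x 2) _ (Ico 0 T) t := ha.mul_const (x 2)
      simp only [Fin.reduceFinMk, Fin.isValue]
      rw [h1.derivWithin hu]
      simp [Fin.sum_univ_three, uf, Af, df]
      ring

lemma nrm_e2 (c : ℝ) : nrm (![0, 0, c] : V) = |c| := by
  unfold nrm
  simp [dotProduct, Fin.sum_univ_three, Real.sqrt_mul_self_eq_abs]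

lemma yf_pos {t : ℝ} (ht : t ∈ Ico 0 T) : 0 < yf T t := by
  have h1 := lf_ge ht
  have h2 : 0 < T - t := sub_pos.2 ht.2
  unfold yf
  positivity

lemma tendsto_lf (T : ℝ) : Tendsto (lf T) (𝓝[<] T) atTop :=
  tendsto_atTop_add_const_right _ _ (tendsto_Lf T)

/-- The linear flow satisfies the hypothesis of the criterion for every `κ < 3`. -/
theorem uf_hyp (hT : 0 < T) {κ : ℝ} (hκ : κ < 3) :
    ∀ᶠ t in 𝓝[<] T, ∀ x, (T - t) ^ 2 * nrm ((hess (pf T t) x).mulVec (vort (uf T t) x))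
      ≤ (2 - κ / Real.log (1 / (T - t))) * nrm (vort (uf T t) x) := by
  have h1 : Tendsto (fun t => Lf T t / lf T t) (𝓝[<] T) (𝓝 1) := by
    have e : Tendsto (fun t => 1 - (1 + Real.log T) / lf T t) (𝓝[<] T) (𝓝 (1 - 0)) :=
      tendsto_const_nhds.sub ((tendsto_lf T).const_div_atTop _)
    rw [sub_zero] at e
    refine e.congr' ?_
    filter_upwards [(tendsto_lf T).eventually (eventually_gt_atTop 0)] with t ht
    have : Lf T t = lf T t - (1 + Real.log T) := by unfold lf; ring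
    rw [this, sub_div, div_self ht.ne']
  have h2 : Tendsto (fun t => 3 * (Lf T t / lf T t) - 2 * (Lf T t / lf T t) * (1 / lf T t))
      (𝓝[<] T) (𝓝 (3 * 1 - 2 * 1 * 0)) :=
    (h1.const_mul 3).sub ((h1.const_mul 2).mul ((tendsto_lf T).const_div_atTop 1))
  have h3 := h2.eventually (lt_mem_nhds (show κ < 3 * 1 - 2 * 1 * 0 by linarith))
  filter_upwards [h3, (tendsto_Lf T).eventually (eventually_gt_atTop 0), Ico_mem_nhdsLT hT]
    with t ht hL htI x
  have hy := yf_pos htI
  have hl := lf_ge htI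
  have hs : 0 < T - t := sub_pos.2 htI.2
  have e1 : (hess (pf T t) x).mulVec (vort (uf T t) x)
      = ![0, 0, -(bf T t + af T t ^ 2) * yf T t] := by
    rw [pf_hess, uf_vort]
    ext i
    fin_cases i <;> simp [Matrix.mulVec_diagonal, df]
  have e2 : bf T t + af T t ^ 2
      = (2 - 3 / lf T t + 2 / (lf T t) ^ 2) / (T - t) ^ 2 := by
    unfold bf af
    field_simp
    ring
  have e3 : 0 ≤ 2 - 3 / lf T t + 2 / (lf T t) ^ 2 := by
    have : 2 - 3 / lf T t + 2 / (lf T t) ^ 2 = (2 * (lf T t - 3 / 4) ^ 2 + 7 / 8) / (lf T t) ^ 2 := by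
      field_simp
      ring
    rw [this]
    positivity
  rw [e1, uf_vort, nrm_e2, nrm_e2, ← Lf_eq, e2, abs_mul, abs_neg,
    abs_of_nonneg (show 0 ≤ (2 - 3 / lf T t + 2 / (lf T t) ^ 2) / (T - t) ^ 2 by positivity),
    abs_of_pos hy]
  have e4 : (T - t) ^ 2 * ((2 - 3 / lf T t + 2 / lf T t ^ 2) / (T - t) ^ 2 * yf T t)
      = (2 - 3 / lf T t + 2 / lf T t ^ 2) * yf T t := by
    field_simp
  rw [e4]
  have e5 : 2 - 3 / lf T t + 2 / lf T t ^ 2 ≤ 2 - κ / Lf T t := by
    have : κ / Lf T t ≤ 3 / lf T t - 2 / lf T t ^ 2 := by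
      rw [div_le_iff₀ hL]
      refine ht.le.trans (le_of_eq ?_)
      field_simp
    linarith
  gcongr

/-- The Beale-Kato-Majda integral of the linear flow diverges. -/
theorem uf_not_bkm (hT : 0 < T) : ¬ BKMFinite T (uf T) := by
  intro hfin
  unfold BKMFinite at hfin
  set I := ∫⁻ t in Ioo 0 T, ⨆ x, ENNReal.ofReal (nrm (vort (uf T t) x)) with hI
  -- lower bound by `log (lf T b) - log (lf T 0)`
  have key : ∀ b ∈ Ico 0 T, Real.log (lf T b) - Real.log (lf T 0) ≤ I.toReal := by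
    intro b hb
    have hc : ContinuousOn (yf T) (Icc 0 b) := fun t ht =>
      (yf_hasDerivAt ⟨ht.1, ht.2.trans_lt hb.2⟩).continuousAt.continuousWithinAt
    have h1 : ∫ t in (0 : ℝ)..b, yf T t = Real.log (lf T b) - Real.log (lf T 0) := by
      refine intervalIntegral.integral_eq_sub_of_hasDerivAt (f := fun t => Real.log (lf T t)) ?_ ?_
      · intro t ht
        rw [uIcc_of_le hb.1] at ht
        have htI : t ∈ Ico 0 T := ⟨ht.1, ht.2.trans_lt hb.2⟩
        have hl := lf_ge htI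
        have hs : 0 < T - t := sub_pos.2 htI.2
        have := (lf_hasDerivAt htI.2).log (by positivity)
        refine this.congr_deriv ?_
        unfold yf
        field_simp
      · exact (hc.mono (by rw [uIcc_of_le hb.1])).intervalIntegrable
    have h2 : ENNReal.ofReal (∫ t in (0 : ℝ)..b, yf T t) ≤ I := by
      rw [intervalIntegral.integral_of_le hb.1, ofReal_integral_eq_lintegral_ofReal]
      · rw [← restrict_Ioo_eq_restrict_Ioc]
        refine (setLIntegral_mono' measurableSet_Ioo fun t ht => ?_).trans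
          (lintegral_mono_set (Ioo_subset_Ioo_right hb.2.le))
        refine le_iSup_of_le 0 ?_
        rw [uf_vort, nrm_e2]
        exact ENNReal.ofReal_le_ofReal (le_abs_self _)
      · exact (hc.integrableOn_Icc).mono_set Ioc_subset_Icc_self
      · refine (ae_restrict_iff' measurableSet_Ioc).2 (Eventually.of_forall fun t ht => ?_)
        exact (yf_pos ⟨ht.1.le, ht.2.trans_lt hb.2⟩).le
    rw [← h1]
    exact (ENNReal.ofReal_le_iff_le_toReal hfin.ne).1 h2
  have h3 : Tendsto (fun b => Real.log (lf T b) - Real.log (lf T 0)) (𝓝[<] T) atTop :=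
    tendsto_atTop_add_const_right _ _ (Real.tendsto_log_atTop.comp (tendsto_lf T))
  obtain ⟨b, hb1, hb2⟩ := ((h3.eventually (eventually_gt_atTop I.toReal)).and
    (Ico_mem_nhdsLT hT)).exists
  exact absurd (key b hb2) (not_le.2 hb1)

end Pool.Agent.H708R2.EulerTypeI
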