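import Pool.Agent.H708R2.EulerTypeI.Defs
import Pool.Agent.H708R2.EulerTypeI.Comp
import Pool.Agent.H708R2.EulerSign.Uniq

/-!
# The velocity gradient and the vorticity along particle trajectories
-/

open MeasureTheory Set
open scoped ENNReal NNReal Topology

namespace Pool.Agent.H708R2.EulerTypeI

open Pool.Agent.H708R2.EulerSign

variable {T : ℝ} {u : ℝ → V → V} {p : ℝ → V → ℝ}

/-- The space-time domain. -/
def Om (T : ℝ) : Set (ℝ × V) := Ioo 0 T ×ˢ univ

lemma isOpen_Om : IsOpen (Om T) := isOpen_Ioo.prod isOpen_univ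

lemma mem_Om {t : ℝ} (ht : t ∈ Ioo 0 T) (x : V) : (t, x) ∈ Om T := ⟨ht, mem_univ _⟩

/-- Slices of a differentiable function on space-time. -/
lemma slice_hasFDerivAt {F : Type*} [NormedAddCommGroup F] [NormedSpace ℝ F] {f : ℝ → V → F}
    {t : ℝ} {x : V} (h : DifferentiableAt ℝ (fun z : ℝ × V => f z.1 z.2) (t, x)) :
    HasFDerivAt (f t)
      (fderiv ℝ (fun z : ℝ × V => f z.1 z.2) (t, x) ∘L ContinuousLinearMap.inr ℝ ℝ V) x := by
  have h1 : HasFDerivAt (fun y : V => ((t, y) : ℝ × V)) (ContinuousLinearMap.inr ℝ ℝ V) x :=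
    hasFDerivAt_prodMk_right t x
  exact h.hasFDerivAt.comp x h1

lemma slice_fderiv {F : Type*} [NormedAddCommGroup F] [NormedSpace ℝ F] {f : ℝ → V → F}
    {t : ℝ} {x : V} (h : DifferentiableAt ℝ (fun z : ℝ × V => f z.1 z.2) (t, x)) (e : V) :
    fderiv ℝ (f t) x e = fderiv ℝ (fun z : ℝ × V => f z.1 z.2) (t, x) (0, e) := by
  rw [(slice_hasFDerivAt h).fderiv]
  rfl

namespace IsC2Solution

variable (h : IsC2Solution T u p)

include h

lemma du {z : ℝ × V} (hz : z ∈ Om T) : DifferentiableAt ℝ (fun z : ℝ × V => u z.1 z.2) z :=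
  (h.u2.contDiffAt (isOpen_Om.mem_nhds hz)).differentiableAt (by norm_num)

lemma dp {z : ℝ × V} (hz : z ∈ Om T) : DifferentiableAt ℝ (fun z : ℝ × V => p z.1 z.2) z :=
  (h.p2.contDiffAt (isOpen_Om.mem_nhds hz)).differentiableAt (by norm_num)

lemma ddu {z : ℝ × V} (hz : z ∈ Om T) :
    DifferentiableAt ℝ (fderiv ℝ (fun z : ℝ × V => u z.1 z.2)) z :=
  ((h.u2.fderiv_of_isOpen isOpen_Om (m := 1) (by norm_num)).contDiffAt
    (isOpen_Om.mem_nhds hz)).differentiableAt (by norm_num)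

lemma ddp {z : ℝ × V} (hz : z ∈ Om T) :
    DifferentiableAt ℝ (fderiv ℝ (fun z : ℝ × V => p z.1 z.2)) z :=
  ((h.p2.fderiv_of_isOpen isOpen_Om (m := 1) (by norm_num)).contDiffAt
    (isOpen_Om.mem_nhds hz)).differentiableAt (by norm_num)

lemma symm_u {z : ℝ × V} (hz : z ∈ Om T) (a b : ℝ × V) :
    fderiv ℝ (fderiv ℝ (fun z : ℝ × V => u z.1 z.2)) z a b
      = fderiv ℝ (fderiv ℝ (fun z : ℝ × V => u z.1 z.2)) z b a :=
  ((h.u2.contDiffAt (isOpen_Om.mem_nhds hz)).isSymmSndFDerivAt (by simp)) a b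

lemma symm_p {z : ℝ × V} (hz : z ∈ Om T) (a b : ℝ × V) :
    fderiv ℝ (fderiv ℝ (fun z : ℝ × V => p z.1 z.2)) z a b
      = fderiv ℝ (fderiv ℝ (fun z : ℝ × V => p z.1 z.2)) z b a :=
  ((h.p2.contDiffAt (isOpen_Om.mem_nhds hz)).isSymmSndFDerivAt (by simp)) a b

lemma grad_eq {z : ℝ × V} (hz : z ∈ Om T) (i j : Fin 3) :
    grad (u z.1) z.2 i j = fderiv ℝ (fun z : ℝ × V => u z.1 z.2) z (0, Pi.single j 1) i := by
  have := slice_fderiv (f := u) (t := z.1) (x := z.2) (h.du hz) (Pi.single j 1)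
  show fderiv ℝ (u z.1) z.2 (Pi.single j 1) i = _
  rw [this]

/-- The momentum equation on space-time. -/
lemma mom {z : ℝ × V} (hz : z ∈ Om T) (i : Fin 3) :
    fderiv ℝ (fun z : ℝ × V => u z.1 z.2) z (1, u z.1 z.2) i
      = -fderiv ℝ (fun z : ℝ × V => p z.1 z.2) z (0, Pi.single i 1) := by
  obtain ⟨t, x⟩ := z
  have ht : t ∈ Ioo 0 T := hz.1
  have h1 := h.sol.momentum t ⟨ht.1.le, ht.2⟩ x i
  rw [derivWithin_of_mem_nhds (Ico_mem_nhds ht.1 ht.2), sum_mul_clm,
    slice_fderiv (f := u) (h.du hz), slice_fderiv (f := p) (h.dp hz)] at h1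
  have h2 : HasDerivAt (fun s => u s x)
      (fderiv ℝ (fun z : ℝ × V => u z.1 z.2) (t, x) (1, 0)) t :=
    HasFDerivAt.comp_hasDerivAt (l := fun z : ℝ × V => u z.1 z.2)
      (f := fun s : ℝ => ((s, x) : ℝ × V)) t (h.du hz).hasFDerivAt
      ((hasDerivAt_id t).prodMk (hasDerivAt_const t x))
  have h3 : deriv (fun s => u s x i) t
      = fderiv ℝ (fun z : ℝ × V => u z.1 z.2) (t, x) (1, 0) i := (hasDerivAt_pi.1 h2 i).deriv
  rw [h3] at h1
  have h4 : ((1, u t x) : ℝ × V) = (1, 0) + (0, u t x) := by simp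
  simp only
  rw [h4, map_add, Pi.add_apply]
  exact h1

/-- The differentiated momentum equation. -/
lemma mom' {z : ℝ × V} (hz : z ∈ Om T) (w : ℝ × V) (i : Fin 3) :
    fderiv ℝ (fderiv ℝ (fun z : ℝ × V => u z.1 z.2)) z w (1, u z.1 z.2) i
      + fderiv ℝ (fun z : ℝ × V => u z.1 z.2) z
          (0, fderiv ℝ (fun z : ℝ × V => u z.1 z.2) z w) i
      = -fderiv ℝ (fderiv ℝ (fun z : ℝ × V => p z.1 z.2)) z w (0, Pi.single i 1) := by
  set U : ℝ × V → V := fun z => u z.1 z.2 with hU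
  set P : ℝ × V → ℝ := fun z => p z.1 z.2 with hP
  have hL : HasFDerivAt (fun z => fderiv ℝ U z (1, U z))
      ((fderiv ℝ U z) ∘L ((0 : ℝ × V →L[ℝ] ℝ).prod (fderiv ℝ U z))
        + (fderiv ℝ (fderiv ℝ U) z).flip (1, U z)) z := by
    have h1 := (h.ddu hz).hasFDerivAt
    have h2 : HasFDerivAt (fun z => ((1 : ℝ), U z)) ((0 : ℝ × V →L[ℝ] ℝ).prod (fderiv ℝ U z)) z :=
      (hasFDerivAt_const (1 : ℝ) z).prodMk (h.du hz).hasFDerivAt
    exact h1.clm_apply h2
  have hR : HasFDerivAt (fun z => (fun i => -fderiv ℝ P z (0, Pi.single i 1) : V))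
      (ContinuousLinearMap.pi fun i => -((fderiv ℝ (fderiv ℝ P) z).flip (0, Pi.single i 1))) z := by
    rw [hasFDerivAt_pi]
    intro i
    have h1 := (h.ddp hz).hasFDerivAt
    have h2 := h1.clm_apply (hasFDerivAt_const ((0, Pi.single i 1) : ℝ × V) z)
    refine h2.neg.congr_fderiv ?_
    ext w <;> simp [hP]
  have hev : (fun z => fderiv ℝ U z (1, U z)) =ᶠ[𝓝 z]
      (fun z => (fun i => -fderiv ℝ P z (0, Pi.single i 1) : V)) := by
    filter_upwards [isOpen_Om.mem_nhds hz] with z' hz'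
    ext i
    exact h.mom hz' i
  have heq := (hL.congr_of_eventuallyEq hev.symm).unique hR
  have := congrArg (fun L : ℝ × V →L[ℝ] V => L w i) heq
  simp only [add_apply, ContinuousLinearMap.comp_apply, ContinuousLinearMap.prod_apply,
    zero_apply, ContinuousLinearMap.flip_apply, Pi.add_apply, ContinuousLinearMap.coe_pi',
    neg_apply] at this
  rw [← this]
  ring

lemma hess_eq {z : ℝ × V} (hz : z ∈ Om T) (i j : Fin 3) :
    hess (p z.1) z.2 i j
      = fderiv ℝ (fderiv ℝ (fun z : ℝ × V => p z.1 z.2)) z (0, Pi.single j 1)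
          (0, Pi.single i 1) := by
  obtain ⟨t, x⟩ := z
  set P : ℝ × V → ℝ := fun z => p z.1 z.2 with hP
  have h1 : (fun y => fderiv ℝ (p t) y (Pi.single i 1))
      = fun y => fderiv ℝ P (t, y) (0, Pi.single i 1) := by
    ext1 y
    exact slice_fderiv (f := p) (h.dp (mem_Om hz.1 y)) _
  show fderiv ℝ (fun y => fderiv ℝ (p t) y (Pi.single i 1)) x (Pi.single j 1) = _
  rw [h1]
  have h2 : HasFDerivAt (fun z => fderiv ℝ P z (0, Pi.single i 1))
      ((fderiv ℝ (fderiv ℝ P) (t, x)).flip (0, Pi.single i 1)) (t, x) := by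
    have h3 := (h.ddp hz).hasFDerivAt.clm_apply
      (hasFDerivAt_const ((0, Pi.single i 1) : ℝ × V) (t, x))
    refine h3.congr_fderiv ?_
    ext w <;> simp [hP]
  have h3 : HasFDerivAt (fun y : V => ((t, y) : ℝ × V)) (ContinuousLinearMap.inr ℝ ℝ V) x :=
    hasFDerivAt_prodMk_right t x
  have h4 := HasFDerivAt.comp (g := fun z => fderiv ℝ P z (0, Pi.single i 1))
    (f := fun y : V => ((t, y) : ℝ × V)) x h2 h3
  have h5 : fderiv ℝ (fun y => fderiv ℝ P (t, y) (0, Pi.single i 1)) x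
      = (fderiv ℝ (fderiv ℝ P) (t, x)).flip (0, Pi.single i 1) ∘L ContinuousLinearMap.inr ℝ ℝ V :=
    h4.fderiv
  rw [h5]
  rfl

lemma hess_symm {z : ℝ × V} (hz : z ∈ Om T) (i j : Fin 3) :
    hess (p z.1) z.2 i j = hess (p z.1) z.2 j i := by
  rw [h.hess_eq hz, h.hess_eq hz, h.symm_p hz]

end IsC2Solution

/-- `X` is a trajectory on `[a, b]`. -/
def IsTraj (u : ℝ → V → V) (X : ℝ → V) (a b : ℝ) : Prop :=
  ∀ t ∈ Icc a b, HasDerivWithinAt X (u t (X t)) (Icc a b) t

/-- The gradient along a trajectory satisfies `A' = - A² - D²p`. -/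
lemma grad_deriv (h : IsC2Solution T u p) {X : ℝ → V} {a b : ℝ} (hX : IsTraj u X a b)
    (hab : Icc a b ⊆ Ioo 0 T) {t : ℝ} (ht : t ∈ Icc a b) (i j : Fin 3) :
    HasDerivWithinAt (fun t => grad (u t) (X t) i j)
      (-(grad (u t) (X t) * grad (u t) (X t)) i j - hess (p t) (X t) i j) (Icc a b) t := by
  set U : ℝ × V → V := fun z => u z.1 z.2 with hU
  have hz : (t, X t) ∈ Om T := mem_Om (hab ht) _
  have hZ : HasDerivWithinAt (fun t => ((t, X t) : ℝ × V)) (1, u t (X t)) (Icc a b) t :=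
    (hasDerivWithinAt_id t _).prodMk (hX t ht)
  have h1 : HasDerivWithinAt (fun t => fderiv ℝ U (t, X t))
      (fderiv ℝ (fderiv ℝ U) (t, X t) (1, u t (X t))) (Icc a b) t :=
    (h.ddu hz).hasFDerivAt.comp_hasDerivWithinAt t hZ
  have h2 : HasDerivWithinAt (fun t => fderiv ℝ U (t, X t) (0, Pi.single j 1))
      (fderiv ℝ (fderiv ℝ U) (t, X t) (1, u t (X t)) (0, Pi.single j 1)) (Icc a b) t := by
    have := h1.clm_apply (hasDerivWithinAt_const t (Icc a b) ((0, Pi.single j 1) : ℝ × V))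
    simpa using this
  have h3 : HasDerivWithinAt (fun t => fderiv ℝ U (t, X t) (0, Pi.single j 1) i)
      (fderiv ℝ (fderiv ℝ U) (t, X t) (1, u t (X t)) (0, Pi.single j 1) i) (Icc a b) t :=
    hasDerivWithinAt_pi.1 h2 i
  have h4 : ∀ s ∈ Icc a b, grad (u s) (X s) i j = fderiv ℝ U (s, X s) (0, Pi.single j 1) i :=
    fun s hs => h.grad_eq (mem_Om (hab hs) _) i j
  refine (h3.congr h4 (h4 t ht)).congr_deriv ?_
  rw [h.symm_u hz]
  have h5 := h.mom' hz (0, Pi.single j 1) i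
  simp only at h5
  have h6 : fderiv ℝ U (t, X t) (0, fderiv ℝ U (t, X t) (0, Pi.single j 1)) i
      = (grad (u t) (X t) * grad (u t) (X t)) i j := by
    rw [← slice_fderiv (f := u) (h.du hz), ← sum_mul_clm, Matrix.mul_apply]
    refine Finset.sum_congr rfl fun k _ => ?_
    rw [h.grad_eq hz k j, mul_comm]
    rfl
  rw [h6] at h5
  have h7 := h.hess_eq hz i j
  simp only at h7
  rw [h7]
  linarith

/-- The curl of a matrix. -/
def cv (A : Matrix (Fin 3) (Fin 3) ℝ) : V := ![A 2 1 - A 1 2, A 0 2 - A 2 0, A 1 0 - A 0 1]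

lemma vort_eq (v : V → V) (x : V) : vort v x = cv (grad v x) := rfl

lemma cv_sq {A : Matrix (Fin 3) (Fin 3) ℝ} (hA : A.trace = 0) :
    cv (A * A) = -A.mulVec (cv A) := by
  have h : A 0 0 + A 1 1 + A 2 2 = 0 := by
    simpa [Matrix.trace, Fin.sum_univ_three] using hA
  ext i
  fin_cases i
  · simp [cv, Matrix.mul_apply, Matrix.mulVec, dotProduct, Fin.sum_univ_three]
    linear_combination (A 2 1 - A 1 2) * h
  · simp [cv, Matrix.mul_apply, Matrix.mulVec, dotProduct, Fin.sum_univ_three]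
    linear_combination (A 0 2 - A 2 0) * h
  · simp [cv, Matrix.mul_apply, Matrix.mulVec, dotProduct, Fin.sum_univ_three]
    linear_combination (A 1 0 - A 0 1) * h

/-- The vorticity along a trajectory: `ω' = (∇u) ω`. -/
lemma vort_deriv (h : IsC2Solution T u p) {X : ℝ → V} {a b : ℝ} (hX : IsTraj u X a b)
    (hab : Icc a b ⊆ Ioo 0 T) {t : ℝ} (ht : t ∈ Icc a b) :
    HasDerivWithinAt (fun t => vort (u t) (X t))
      ((grad (u t) (X t)).mulVec (vort (u t) (X t))) (Icc a b) t := by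
  have hz : (t, X t) ∈ Om T := mem_Om (hab ht) _
  have htI : t ∈ Ico 0 T := ⟨(hab ht).1.le, (hab ht).2⟩
  have hd := fun i j => grad_deriv h hX hab ht i j
  have hs := fun i j => h.hess_symm hz i j
  simp only at hs
  have hcv := cv_sq (A := grad (u t) (X t)) (h.sol.div_free t htI (X t))
  have e : (grad (u t) (X t)).mulVec (vort (u t) (X t))
      = -cv (grad (u t) (X t) * grad (u t) (X t)) := by
    rw [hcv, neg_neg, vort_eq]
  rw [e, hasDerivWithinAt_pi]
  intro i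
  fin_cases i
  · refine ((hd 2 1).sub (hd 1 2)).congr_deriv ?_
    simp only [cv, Pi.neg_apply, Matrix.cons_val_zero, Fin.zero_eta]
    rw [hs 2 1]; ring
  · refine ((hd 0 2).sub (hd 2 0)).congr_deriv ?_
    simp only [cv, Pi.neg_apply, Fin.mk_one, Matrix.cons_val_one, Matrix.cons_val_zero]
    rw [hs 2 0]; ring
  · refine ((hd 1 0).sub (hd 0 1)).congr_deriv ?_
    simp only [cv, Pi.neg_apply, Fin.reduceFinMk, Matrix.cons_val]
    rw [hs 1 0]; ring

/-- The second derivative of the vorticity along a trajectory: `ω'' = - (D²p) ω`. -/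
lemma vort_deriv2 (h : IsC2Solution T u p) {X : ℝ → V} {a b : ℝ} (hX : IsTraj u X a b)
    (hab : Icc a b ⊆ Ioo 0 T) {t : ℝ} (ht : t ∈ Icc a b) :
    HasDerivWithinAt (fun t => (grad (u t) (X t)).mulVec (vort (u t) (X t)))
      (-(hess (p t) (X t)).mulVec (vort (u t) (X t))) (Icc a b) t := by
  have hd := fun i j => grad_deriv h hX hab ht i j
  have hv := fun j => hasDerivWithinAt_pi.1 (vort_deriv h hX hab ht) j
  rw [hasDerivWithinAt_pi]
  intro i
  have h1 : HasDerivWithinAt (fun t => ∑ j, grad (u t) (X t) i j * vort (u t) (X t) j)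
      (∑ j, ((-(grad (u t) (X t) * grad (u t) (X t)) i j - hess (p t) (X t) i j)
        * vort (u t) (X t) j + grad (u t) (X t) i j
        * (grad (u t) (X t)).mulVec (vort (u t) (X t)) j)) (Icc a b) t :=
    HasDerivWithinAt.fun_sum fun j _ => (hd i j).mul (hv j)
  refine h1.congr_deriv ?_
  simp only [Pi.neg_apply, Matrix.mulVec, dotProduct, Matrix.mul_apply, Fin.sum_univ_three]
  ring

end Pool.Agent.H708R2.EulerTypeI
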